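import Pool.Agent.MP_c4b7b1_co.DS.Defs

set_option autoImplicit false

section
namespace Pool.Agent.MP_c4b7b1_co.DS

open Finset Real

theorem grid_Lap {L : Type} [Fintype L] [DecidableEq L] {V : Type} [Fintype V] [DecidableEq V]
    (d : V → ℕ) (T : ℕ → Finset (L → ℕ)) (c : ℕ → (L → ℕ) → ℝ) (hc : ∀ j t, 0 ≤ c j t) (N : ℕ)
    (hD : ∀ j, ∀ t ∈ T j, ∑ l, t l = j) (hN : ⌈√((∑ v, d v : ℕ) : ℝ)⌉₊ < N) :
    cnt2 d T c ≤ (3 * exp 2) ^ Fintype.card L *
      ∑ t ∈ Fintype.piFinset (fun _ : L => range N),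
        (∏ v, fT (T (d v)) (c (d v)) (fun l => (t l : ℝ))) * exp (-(∑ l, (t l : ℝ) ^ 2) / 2) := by
  classical
  have h1 : cnt2 d T c = ∑ τ ∈ Fintype.piFinset (fun v : V => T (d v)),
      (∏ v, c (d v) (τ v)) * ∏ l, ((gset (fun v => τ v l)).card : ℝ) := by
    unfold cnt2
    rw [← sum_fiberwise_of_maps_to (t := Fintype.piFinset (fun v : V => T (d v)))
      (g := fun (F : L → SimpleGraph V) v l => deg (F l) v)]
    · apply sum_congr rfl
      intro τ hτ
      rw [Fintype.mem_piFinset] at hτ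
      have e : (univ.filter (fun F : L → SimpleGraph V =>
          ∀ v, (fun l => deg (F l) v) ∈ T (d v))).filter
          (fun F => (fun v l => deg (F l) v) = τ) =
          Fintype.piFinset (fun l => gset (fun v => τ v l)) := by
        ext F
        simp only [mem_filter, mem_univ, true_and, Fintype.mem_piFinset, mem_gset]
        constructor
        · rintro ⟨-, rfl⟩ l v; rfl
        · intro h
          have : (fun v l => deg (F l) v) = τ := by
            funext v l; exact h l v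
          refine ⟨fun v => ?_, this⟩
          have h2 : (fun l => deg (F l) v) = τ v := congrFun this v
          rw [h2]; exact hτ v
      rw [e, sum_congr rfl (g := fun _ => ∏ v, c (d v) (τ v)), sum_const, Fintype.card_piFinset,
        nsmul_eq_mul, mul_comm]
      · push_cast; rfl
      · intro F hF
        simp only [Fintype.mem_piFinset, mem_gset] at hF
        apply prod_congr rfl
        intro v _
        congr 1
        funext l; exact hF l v
    · intro F hF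
      simp only [mem_filter, mem_univ, true_and] at hF
      exact Fintype.mem_piFinset.mpr hF
  have h2 : ∀ τ ∈ Fintype.piFinset (fun v : V => T (d v)), ∀ l,
      ((gset (fun v => τ v l)).card : ℝ) ≤ (3 * exp 2) * ∑ t ∈ range N,
        (∏ v, (t : ℝ) ^ τ v l / (τ v l).factorial) * exp (-(t : ℝ) ^ 2 / 2) := by
    intro τ hτ l
    rw [Fintype.mem_piFinset] at hτ
    have ha := card_gset_le _ (fun v => τ v l) rfl
    have hb : ((gset (fun v => τ v l)).card : ℝ) * ∏ v, ((τ v l).factorial : ℝ) ≤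
        pm (∑ v, τ v l) := by exact_mod_cast ha
    have hm : ∑ v, τ v l ≤ ∑ v, d v := by
      apply sum_le_sum
      intro v _
      exact (single_le_sum (f := τ v) (fun _ _ => Nat.zero_le _) (mem_univ l)).trans
        (hD _ _ (hτ v)).le
    have hN' : ⌈√((∑ v, τ v l : ℕ) : ℝ)⌉₊ < N := by
      refine lt_of_le_of_lt (Nat.ceil_mono (sqrt_le_sqrt ?_)) hN
      exact_mod_cast hm
    have hd := pm_le_grid _ _ hN'
    have hpos : (0 : ℝ) < ∏ v, ((τ v l).factorial : ℝ) := by positivity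
    rw [← le_div_iff₀ hpos] at hb
    refine hb.trans ((div_le_div_of_nonneg_right hd hpos.le).trans (le_of_eq ?_))
    rw [mul_div_assoc, sum_div]
    congr 1
    apply sum_congr rfl
    intro t _
    rw [prod_div_distrib, prod_pow_eq_pow_sum]
    ring
  rw [h1]
  calc _ ≤ ∑ τ ∈ Fintype.piFinset (fun v : V => T (d v)), (∏ v, c (d v) (τ v)) * ∏ l : L,
        ((3 * exp 2) *
        ∑ t ∈ range N, (∏ v, (t : ℝ) ^ τ v l / (τ v l).factorial) * exp (-(t : ℝ) ^ 2 / 2)) := by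
        apply sum_le_sum
        intro τ hτ
        apply mul_le_mul_of_nonneg_left _ (prod_nonneg (fun v _ => hc _ _))
        exact prod_le_prod (fun l _ => by positivity) (fun l _ => h2 τ hτ l)
    _ = ∑ τ ∈ Fintype.piFinset (fun v : V => T (d v)), (3 * exp 2) ^ Fintype.card L *
        ∑ t ∈ Fintype.piFinset (fun _ : L => range N),
          (∏ v, c (d v) (τ v) * mono (τ v) (fun l => (t l : ℝ))) *
            exp (-(∑ l, (t l : ℝ) ^ 2) / 2) := by
        apply sum_congr rfl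
        intro τ _
        rw [prod_mul_distrib, prod_const, card_univ, prod_univ_sum, mul_left_comm, mul_sum]
        congr 1
        apply sum_congr rfl
        intro t _
        rw [prod_mul_distrib, prod_mul_distrib, ← exp_sum, prod_comm, mul_assoc]
        unfold mono
        congr 3
        rw [← sum_div, ← sum_neg_distrib]
    _ = _ := by
        rw [← mul_sum, sum_comm]
        congr 1
        apply sum_congr rfl
        intro t _
        rw [← sum_mul, ← prod_univ_sum (fun v : V => T (d v))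
          (fun v x => c (d v) x * mono x (fun l => (t l : ℝ)))]
        rfl

theorem sLap : SLap := by
  intro L _ _ D T c u P κ hc hT hP hκ H
  obtain ⟨C, hC0, hC⟩ := gauss_sum_le κ hκ
  refine ⟨(3 * exp 2) ^ Fintype.card L * C ^ Fintype.card L + 1, by positivity,
    fun V _ _ d hd hM => ?_⟩
  have h1 := grid_Lap d T c hc _ hT (Nat.lt_succ_self _)
  set N := (⌈√((∑ v, d v : ℕ) : ℝ)⌉₊).succ
  obtain ⟨M, hMe⟩ : ∃ M, M = ∑ v, d v := ⟨_, rfl⟩
  rw [← hMe] at hM ⊢
  have hM0 : (0 : ℝ) < M := by exact_mod_cast hM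
  obtain ⟨s, hs⟩ : ∃ s, s = √(M : ℝ) := ⟨_, rfl⟩
  have hs0 : 0 < s := by rw [hs]; positivity
  have hss : s ^ 2 = M := by rw [hs, sq_sqrt hM0.le]
  have hL : 0 ≤ lap M * ∏ v, P (d v) := mul_nonneg (lap_pos M).le (prod_nonneg fun v _ => hP _)
  have key : ∀ t : L → ℝ, (∀ l, 0 ≤ t l) →
      (∏ v, fT (T (d v)) (c (d v)) t) * exp (-(∑ l, t l ^ 2) / 2) ≤
        (lap M * ∏ v, P (d v)) * ∏ l, exp (-(κ * (t l - s * u l) ^ 2)) := by
    intro t ht
    obtain ⟨E, hE⟩ : ∃ E, E = (∑ l, (t l / s) ^ 2) / 2 - 1 / 2 - κ * ∑ l, (t l / s - u l) ^ 2 :=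
      ⟨_, rfl⟩
    have a1 : ∀ v, fT (T (d v)) (c (d v)) t ≤ s ^ d v * (P (d v) * exp (d v * E)) := by
      intro v
      have e : fT (T (d v)) (c (d v)) t = s ^ d v * fT (T (d v)) (c (d v)) (fun l => t l / s) := by
        unfold fT
        rw [mul_sum]
        refine sum_congr rfl fun x hx => ?_
        rw [mul_left_comm, ← hT _ _ hx, ← mono_smul]
        congr 2
        funext l; field_simp
      rw [e, hE]
      exact mul_le_mul_of_nonneg_left
        (H _ (hd v) _ fun l => div_nonneg (ht l) hs0.le) (by positivity)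
    refine (mul_le_mul_of_nonneg_right (prod_le_prod (fun v _ => fT_nonneg _ (hc _) ht)
      fun v _ => a1 v) (exp_pos _).le).trans (le_of_eq ?_)
    rw [prod_mul_distrib, prod_mul_distrib, prod_pow_eq_pow_sum, ← exp_sum, ← exp_sum, ← sum_mul,
      ← Nat.cast_sum, ← hMe, sum_neg_distrib, ← mul_sum]
    unfold lap
    rw [← hs]
    have e1 : ∑ l, (t l / s) ^ 2 = (∑ l, t l ^ 2) / M := by
      rw [sum_div]; exact sum_congr rfl fun l _ => by rw [div_pow, hss]
    have e2 : ∑ l, (t l / s - u l) ^ 2 = (∑ l, (t l - s * u l) ^ 2) / M := by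
      rw [sum_div]; exact sum_congr rfl fun l _ => by rw [← hss]; field_simp
    have e3 : exp (M * E) * exp (-(∑ l, t l ^ 2) / 2) =
        exp (-(M : ℝ) / 2) * exp (-(κ * ∑ l, (t l - s * u l) ^ 2)) := by
      rw [← exp_add, ← exp_add, hE, e1, e2]
      congr 1
      field_simp
      ring
    linear_combination (s ^ M * ∏ v, P (d v)) * e3
  have h2 : ∑ t ∈ Fintype.piFinset (fun _ : L => range N),
      (∏ v, fT (T (d v)) (c (d v)) (fun l => (t l : ℝ))) * exp (-(∑ l, (t l : ℝ) ^ 2) / 2) ≤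
        (lap M * ∏ v, P (d v)) * C ^ Fintype.card L := by
    calc _ ≤ ∑ t ∈ Fintype.piFinset (fun _ : L => range N),
          (lap M * ∏ v, P (d v)) * ∏ l, exp (-(κ * ((t l : ℝ) - s * u l) ^ 2)) :=
          sum_le_sum fun t _ => key (fun l => (t l : ℝ)) (fun l => by positivity)
      _ = (lap M * ∏ v, P (d v)) * ∏ l : L, ∑ t ∈ range N,
          exp (-(κ * ((t : ℝ) - s * u l) ^ 2)) := by
          rw [← mul_sum, prod_univ_sum]
      _ ≤ _ := by
          apply mul_le_mul_of_nonneg_left _ hL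
          rw [← card_univ, ← prod_const]
          exact prod_le_prod (fun l _ => by positivity) (fun l _ => hC N _)
  calc _ ≤ _ := h1
    _ ≤ (3 * exp 2) ^ Fintype.card L * ((lap M * ∏ v, P (d v)) * C ^ Fintype.card L) := by gcongr
    _ ≤ _ := by nlinarith

end Pool.Agent.MP_c4b7b1_co.DS

end

section
namespace Pool.Agent.MP_c4b7b1_co.DS

open Finset Real

theorem sPma : SPma := by
  classical
  intro D
  refine ⟨2 * exp (2 * D), by positivity, 4 * D + 4, fun V _ _ S H hH hS hN => ?_⟩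
  obtain ⟨t, ht⟩ := hS
  have hc : Fintype.card {v // v ∈ S} = S.card := Fintype.card_coe S
  let ι : {v // v ∈ S} ↪ V := Function.Embedding.subtype _
  have hH' : ∀ v, deg (H.comap ι) v ≤ D := by
    intro v
    refine le_trans ?_ (hH (ι v))
    unfold deg
    refine card_le_card_of_injOn ι (fun w hw => ?_) ι.injective.injOn
    rw [mem_coe, mem_nb] at hw ⊢
    exact hw
  have a1 := switch (le_refl (0 : ℝ)) (H.comap ι) D hH' (by rw [hc]; exact hN)
  have a2 := sum_mset_ge (V := {v // v ∈ S}) (le_refl (0 : ℝ))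
  have a3 : (pm S.card : ℝ) ≤ ∑ T ∈ (univ : Finset {v // v ∈ S}).powerset,
      (pm T.card : ℝ) * 0 ^ (Fintype.card {v // v ∈ S} - T.card) := by
    refine le_trans (le_of_eq ?_) (single_le_sum (f := fun T : Finset {v // v ∈ S} =>
      (pm T.card : ℝ) * 0 ^ (Fintype.card {v // v ∈ S} - T.card)) (fun T _ => by positivity)
      (mem_powerset_self univ))
    simp only [card_univ, Nat.sub_self, pow_zero, mul_one, hc]
  have a4 : ∑ M ∈ mset (H.comap ι), wt 0 M ≤ (pms S H).card := by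
    have b1 : ∑ M ∈ mset (H.comap ι), wt 0 M =
        (((mset (H.comap ι)).filter (fun M => ∀ v, deg M v = 1)).card : ℝ) := by
      rw [card_filter, Nat.cast_sum]
      refine sum_congr rfl fun M hM => ?_
      unfold wt
      split_ifs with h
      · simp [h]
      · push Not at h
        obtain ⟨v, hv⟩ := h
        have := (mem_mset.1 hM).1 v
        rw [Nat.cast_zero]
        exact prod_eq_zero (mem_univ v) (zero_pow (by omega))
    rw [b1]
    refine Nat.cast_le.2 (card_le_card_of_injOn (fun M => M.map ι) (fun M hM => ?_)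
      (SimpleGraph.map_injective ι).injOn)
    rw [mem_coe, mem_filter, mem_mset] at hM
    obtain ⟨⟨-, c1⟩, c2⟩ := hM
    rw [mem_coe, mem_pms]
    refine ⟨fun v => ?_, ?_⟩
    · unfold ind
      split_ifs with hv
      · rw [← c2 ⟨v, hv⟩]
        unfold deg
        symm
        refine card_bij (fun w _ => ι w) (fun w hw => ?_) (fun _ _ _ _ h => ι.injective h) ?_
        · rw [mem_nb] at hw ⊢
          exact (SimpleGraph.map_adj_apply (f := ι) (a := ⟨v, hv⟩)).2 hw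
        · intro w hw
          rw [mem_nb, SimpleGraph.map_adj] at hw
          obtain ⟨x, y, h1, h2, h3⟩ := hw
          refine ⟨y, mem_nb.2 ?_, h3⟩
          have : x = ⟨v, hv⟩ := Subtype.ext h2
          exact this ▸ h1
      · rw [deg_eq_zero]
        intro w hw
        rw [SimpleGraph.map_adj] at hw
        obtain ⟨x, y, -, h2, -⟩ := hw
        exact hv (h2 ▸ x.2)
    · rw [disjoint_iff] at c1 ⊢
      ext v w
      simp only [SimpleGraph.inf_adj, SimpleGraph.bot_adj, iff_false, SimpleGraph.map_adj]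
      rintro ⟨h0, x, y, h1, rfl, rfl⟩
      have : (H.comap ι ⊓ M).Adj x y := ⟨h0, h1⟩
      rw [c1] at this
      exact this
  have a5 := lap_le_pm t
  rw [two_mul t, ← ht] at a5
  calc _ ≤ 2 * (pm S.card : ℝ) := a5
    _ ≤ 2 * (exp (2 * D) * (pms S H).card) := by
        gcongr
        exact (a3.trans (a2.trans a1)).trans (by gcongr)
    _ = _ := by ring

end Pool.Agent.MP_c4b7b1_co.DS

end

section
namespace Pool.Agent.MP_c4b7b1_co.DS

open Finset Real

section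
variable {V : Type} [Fintype V] [DecidableEq V]

lemma cost_par_Sel {e : V → ℕ} (he : ∀ v, e v ≤ 1) (h2 : Even (∑ v, e v)) {X : Finset V}
    (hX : Odd X.card) : 1 ≤ cost 1 e X := by
  by_contra h
  have h0 : cost 1 e X = 0 := by omega
  unfold cost at h0
  rw [sum_eq_zero_iff] at h0
  have : ∑ v, e v = X.card := by
    rw [card_eq_sum_ones, ← sum_ite_mem_eq X (fun _ => 1)]
    refine sum_congr rfl fun v _ => ?_
    have a := h0 v (mem_univ v)
    have b := he v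
    split_ifs at a ⊢ <;> omega
  rw [this] at h2
  exact Nat.not_even_iff_odd.2 hX h2

lemma par_Sel (X S : Finset V) : (symmDiff X S).card % 2 = (X.card + S.card) % 2 := by
  have h1 := card_sdiff_add_card_inter X S
  have h2 := card_sdiff_add_card_inter S X
  rw [inter_comm] at h2
  have h3 : (symmDiff X S).card = (X \ S).card + (S \ X).card := by
    rw [symmDiff_def, sup_eq_union, card_union_of_disjoint disjoint_sdiff_sdiff]
  omega

lemma cost_tog_Sel (D : ℕ) (d : V → ℕ) (S Y : Finset V) :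
    cost D d (symmDiff Y S) = ∑ v ∈ Y, (if v ∈ S then d v else D - d v) +
      ∑ v ∈ Yᶜ, (if v ∈ S then D - d v else d v) := by
  unfold cost
  rw [← sum_add_sum_compl Y]
  congr 1
  · refine sum_congr rfl fun v hv => ?_
    by_cases h : v ∈ S <;> simp [mem_symmDiff, hv, h]
  · refine sum_congr rfl fun v hv => ?_
    have := mem_compl.1 hv
    by_cases h : v ∈ S <;> simp [mem_symmDiff, this, h]

end

theorem sSel : SSel := by
  intro V _ _ k d ⟨hd, he, hX⟩
  obtain ⟨S, hS, hmin⟩ := exists_min_image (univ.filter (fun S : Finset V => Even S.card))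
    (cost (k + 1) d) ⟨∅, by simp⟩
  have hS2 : Even S.card := (mem_filter.1 hS).2
  obtain ⟨g, hg⟩ : ∃ g : V → ℕ, g = fun v => if v ∈ S then d v else k + 1 - d v := ⟨_, rfl⟩
  obtain ⟨c, hc⟩ : ∃ c : V → ℕ, c = fun v => if v ∈ S then k + 1 - d v else d v := ⟨_, rfl⟩
  have tog : ∀ Y : Finset V, cost (k + 1) d (symmDiff Y S) = ∑ v ∈ Y, g v + ∑ v ∈ Yᶜ, c v :=
    fun Y => by rw [cost_tog_Sel, hg, hc]
  have gc : ∀ v, g v + c v = k + 1 := fun v => by
    have := hd v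
    rw [hg, hc]; dsimp only; split_ifs <;> omega
  have pair : ∀ a b, a ≠ b → k + 1 ≤ g a + g b := by
    intro a b hab
    have h1 := hmin (symmDiff {a, b} S) (mem_filter.2 ⟨mem_univ _, by
      have := par_Sel {a, b} S
      rw [card_pair hab] at this
      rw [Nat.even_iff] at hS2 ⊢
      omega⟩)
    have h2 : cost (k + 1) d S = ∑ v ∈ {a, b}, c v + ∑ v ∈ ({a, b} : Finset V)ᶜ, c v := by
      rw [sum_add_sum_compl, hc]; rfl
    rw [tog, h2, sum_pair hab, sum_pair hab] at h1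
    have := gc a
    have := gc b
    omega
  have gpos : ∀ v, 1 ≤ g v := by
    intro v
    by_contra h
    have h1 := hX (symmDiff {v} S) (by
      have := par_Sel {v} S
      rw [card_singleton] at this
      rw [Nat.even_iff] at hS2
      rw [Nat.odd_iff]
      omega)
    rw [tog, sum_singleton, sum_eq_zero (s := ({v} : Finset V)ᶜ)] at h1
    · omega
    · intro b hb
      have := pair b v (by simpa using hb)
      have := gc b
      omega
  have v1 : ∀ v ∈ S, 1 ≤ d v := fun v hv => by simpa [hg, hv] using gpos v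
  have v2 : ∀ v, low d S v ≤ k := fun v => by
    have a := gpos v
    have b := hd v
    rw [hg] at a
    unfold low
    dsimp only at a
    split_ifs at a ⊢ <;> omega
  have v3 : Even (∑ v, low d S v) := by
    have := sum_low_add d S v1
    rw [Nat.even_iff] at he hS2 ⊢
    omega
  refine ⟨S, hS2, v1, v2, v3, fun X hXo => ?_⟩
  rcases Nat.lt_or_ge k 2 with hk | hk
  · interval_cases k
    · exact Nat.zero_le _
    · exact cost_par_Sel v2 v3 hXo
  obtain ⟨Y, hY⟩ : ∃ Y, Y = symmDiff X S := ⟨_, rfl⟩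
  have hXY : X = symmDiff Y S := by rw [hY, symmDiff_symmDiff_cancel_right]
  have hYo : Y.card % 2 = 1 := by
    have := par_Sel X S
    rw [Nat.even_iff] at hS2
    rw [Nat.odd_iff] at hXo
    rw [hY]; omega
  have e1 : cost k (low d S) X + Y.card = cost (k + 1) d X := by
    unfold cost
    rw [card_eq_sum_ones, ← sum_ite_mem_eq Y (fun _ => 1), ← sum_add_distrib]
    refine sum_congr rfl fun v _ => ?_
    have a := gpos v
    have b := hd v
    rw [hg] at a
    unfold low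
    by_cases h1 : v ∈ X <;> by_cases h2 : v ∈ S <;> simp [hY, mem_symmDiff, h1, h2] at a ⊢ <;> omega
  have e2 := hX X hXo
  rcases Nat.lt_or_ge Y.card 2 with hr | hr
  · omega
  have e3 : ∑ v ∈ Y, g v ≤ cost (k + 1) d X := by rw [hXY, tog]; omega
  obtain ⟨a, ha, hmn⟩ := exists_min_image Y g (card_pos.1 (by omega))
  obtain ⟨b, hb⟩ : (Y.erase a).Nonempty := card_pos.1 (by rw [card_erase_of_mem ha]; omega)
  have e4 := add_sum_erase Y g ha
  have e5 := add_sum_erase (Y.erase a) g hb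
  have e6 : ((Y.erase a).erase b).card • 2 ≤ ∑ v ∈ (Y.erase a).erase b, g v := by
    refine card_nsmul_le_sum _ _ _ fun v hv => ?_
    have h1 := mem_erase.1 (mem_erase.1 hv).2
    have := pair v a h1.1
    have := hmn v h1.2
    omega
  rw [card_erase_of_mem hb, card_erase_of_mem ha, smul_eq_mul] at e6
  have := pair b a (mem_erase.1 hb).1
  omega

end Pool.Agent.MP_c4b7b1_co.DS

end

section
namespace Pool.Agent.MP_c4b7b1_co.DS

open Finset Real

section
variable {V : Type} [Fintype V] [DecidableEq V]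

lemma main_Wt {k N : ℕ} {d : V → ℕ} (hd : ∀ v, d v ≤ k + 1) (W : Finset V)
    (hW : ∀ v ∈ W, 1 ≤ d v ∧ d v ≤ k)
    (h : ∀ T : Finset V, (∀ v ∈ T, v ∉ W ∧ 1 ≤ d v) → (∀ v, v ∉ W → v ∉ T → d v ≤ k) →
      ∃ S, Good k N d S ∧ S \ W = T) :
    (k + 1) ^ Fintype.card V ≤ (k + 1) ^ W.card * ∑ S ∈ goods k N d, ws k d S := by
  rw [← card_add_card_compl W, pow_add]
  refine Nat.mul_le_mul_left _ ?_
  have e0 : (k + 1) ^ Wᶜ.card = ∏ v ∈ Wᶜ, (d v + (k + 1 - d v)) := by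
    rw [← prod_const]
    exact prod_congr rfl fun v _ => (Nat.add_sub_cancel' (hd v)).symm
  rw [e0, prod_add,
    ← sum_fiberwise_of_maps_to (s := goods k N d) (t := Wᶜ.powerset) (g := fun S => S \ W)
      (fun S _ => mem_powerset.2 fun v hv => mem_compl.2 (mem_sdiff.1 hv).2) (ws k d)]
  refine sum_le_sum fun T hT => ?_
  have hT := mem_powerset.1 hT
  by_cases z : (∏ v ∈ T, d v) * ∏ v ∈ Wᶜ \ T, (k + 1 - d v) = 0
  · exact z.le.trans (Nat.zero_le _)
  obtain ⟨z1, z2⟩ := mul_ne_zero_iff.1 z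
  obtain ⟨S, hS, e⟩ := h T
    (fun v hv => ⟨mem_compl.1 (hT hv), Nat.pos_of_ne_zero (prod_ne_zero_iff.1 z1 v hv)⟩)
    fun v h1 h2 => by
      have := prod_ne_zero_iff.1 z2 v (mem_sdiff.2 ⟨mem_compl.2 h1, h2⟩)
      omega
  refine le_trans ?_ (single_le_sum (f := ws k d) (fun _ _ => Nat.zero_le _)
    (mem_filter.2 ⟨mem_goods.2 hS, e⟩))
  have e1 : Wᶜ.filter (· ∈ S) = T := by
    ext v
    simp only [← e, mem_filter, mem_compl, mem_sdiff, and_comm]
  have e2 : Wᶜ.filter (· ∉ S) = Wᶜ \ T := by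
    ext v
    simp only [← e, mem_filter, mem_compl, mem_sdiff]
    tauto
  rw [ws, ← prod_mul_prod_compl W, prod_ite (s := Wᶜ), e1, e2]
  refine Nat.le_mul_of_pos_left _ (prod_pos fun v hv => ?_)
  have := hW v hv
  split_ifs <;> omega

lemma par_Wt (e : V → ℕ) (he : ∀ v, e v ≤ 1) (h : Even (∑ v, e v)) (X : Finset V)
    (hX : Odd X.card) : 1 ≤ cost 1 e X := by
  have : cost 1 e X + 2 * ∑ v, (if v ∈ X then e v else 0) = X.card + ∑ v, e v := by
    rw [cost, card_eq_sum_ones, ← sum_ite_mem_eq X (fun _ => 1), mul_sum, ← sum_add_distrib,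
      ← sum_add_distrib]
    refine sum_congr rfl fun v _ => ?_
    have := he v
    split_ifs <;> omega
  obtain ⟨a, ha⟩ := h
  obtain ⟨b, hb⟩ := hX
  omega

omit [DecidableEq V] in
lemma card_le_Wt (e : V → ℕ) (X : Finset V) (h : ∀ v ∈ X, 1 ≤ e v) : X.card ≤ ∑ v, e v := by
  rw [card_eq_sum_ones]
  exact (sum_le_sum h).trans (sum_le_sum_of_subset (subset_univ X))

lemma big_Wt {k N : ℕ} (hk : 1 ≤ k) {d : V → ℕ} (hd : Crit (k + 1) d) {W₁ W₂ W₃ : Finset V}
    (c1 : W₁.card = N) (c2 : W₂.card = N + 1) (c3 : W₃.card = k)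
    (hW : ∀ v ∈ W₁ ∪ W₂ ∪ W₃, 1 ≤ d v ∧ d v ≤ k) (d1 : ∀ v ∈ W₂, v ∉ W₁)
    (d2 : ∀ v ∈ W₃, v ∉ W₁ ∧ v ∉ W₂) (T : Finset V) (h1 : ∀ v ∈ T, v ∉ W₁ ∪ W₂ ∪ W₃ ∧ 1 ≤ d v)
    (h2 : ∀ v, v ∉ W₁ ∪ W₂ ∪ W₃ → v ∉ T → d v ≤ k) :
    ∃ S, Good k N d S ∧ S \ (W₁ ∪ W₂ ∪ W₃) = T := by
  obtain ⟨w, hw⟩ : W₂.Nonempty := card_pos.1 (by omega)
  simp only [mem_union] at hW h1 h2
  obtain ⟨S, s0, s1, s2⟩ : ∃ S : Finset V, Even S.card ∧
      (∀ v, v ∈ T ∨ v ∈ W₁ ∨ (v ∈ W₃ ∧ 2 ≤ d v) → v ∈ S) ∧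
      ∀ v ∈ S, v = w ∨ v ∈ T ∨ v ∈ W₁ ∨ (v ∈ W₃ ∧ 2 ≤ d v) := by
    rcases Nat.even_or_odd (T ∪ (W₁ ∪ W₃.filter (2 ≤ d ·))).card with h | h
    · exact ⟨_, h, fun v hv => by simpa using hv, fun v hv => Or.inr (by simpa using hv)⟩
    · refine ⟨insert w (T ∪ (W₁ ∪ W₃.filter (2 ≤ d ·))), ?_,
        fun v hv => mem_insert_of_mem (by simpa using hv), fun v hv => by simpa using hv⟩
      rw [card_insert_of_notMem]
      · exact h.add_one
      · simp only [mem_union, mem_filter]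
        grind
  have a1 : ∀ v ∈ S, 1 ≤ d v := by grind
  have a2 : ∀ v, low d S v ≤ k := fun v => by
    have := hd.1 v
    unfold low
    grind
  have a3 : Even (∑ v, low d S v) := by
    have := sum_low_add d S a1
    obtain ⟨a, ha⟩ := hd.2.1
    obtain ⟨b, hb⟩ := s0
    exact ⟨a - b, by omega⟩
  refine ⟨S, ⟨s0, c1 ▸ card_le_card fun v hv => s1 v (Or.inr (Or.inl hv)), a1,
    ⟨a2, a3, fun X hX => ?_⟩, ?_⟩, ?_⟩
  · rcases hk.eq_or_lt with rfl | hk
    · exact par_Wt _ a2 a3 X hX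
    · refine c3.ge.trans (card_le_Wt _ W₃ fun v hv => ?_)
      unfold low
      grind
  · refine le_trans (by rw [card_erase_of_mem hw]; omega) (card_le_Wt _ (W₂.erase w) fun v hv => ?_)
    rw [mem_erase] at hv
    unfold low
    grind
  · ext v
    simp only [mem_sdiff, mem_union]
    grind

lemma small_Wt (h : SSel) {k N : ℕ} (hk : 1 ≤ k) {d : V → ℕ} (hd : Crit (k + 1) d) {W : Finset V}
    (hW : ∀ v, v ∈ W ↔ 1 ≤ d v ∧ d v ≤ k) (hN : W.card * k + N * (k + 1) ≤ ∑ v, d v)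
    (T : Finset V) (h1 : ∀ v ∈ T, v ∉ W ∧ 1 ≤ d v) (h2 : ∀ v, v ∉ W → v ∉ T → d v ≤ k) :
    ∃ S, Good k N d S ∧ S \ W = T := by
  obtain ⟨S, s0, s1, s2⟩ := h V k d hd
  have a0 := hd.1
  have a1 : ∀ v ∈ T, v ∈ S := fun v hv => by
    have := s2.1 v
    unfold low at this
    grind
  have a2 : ∑ v, d v ≤ W.card * k + T.card * (k + 1) := by
    rw [← smul_eq_mul, ← smul_eq_mul, ← sum_const, ← sum_const, ← sum_ite_mem_eq W,
      ← sum_ite_mem_eq T, ← sum_add_distrib]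
    refine sum_le_sum fun v _ => ?_
    grind
  have a3 : N ≤ T.card := Nat.le_of_mul_le_mul_right (c := k + 1) (by omega) (by omega)
  refine ⟨S, ⟨s0, a3.trans (card_le_card a1), s1, s2, a3.trans (card_le_Wt _ T fun v hv => ?_)⟩, ?_⟩
  · unfold low
    grind
  · ext v
    simp only [mem_sdiff]
    grind

end

theorem sWt (h : SSel) : SWt := by
  intro k N hk
  refine ⟨((k : ℝ) + 1) ^ (2 * N + 1 + k), by positivity, (2 * N + 1 + k) * k + N * (k + 1),
    fun V _ _ d hd hN => ?_⟩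
  have key : ∃ n ≤ 2 * N + 1 + k,
      (k + 1) ^ Fintype.card V ≤ (k + 1) ^ n * ∑ S ∈ goods k N d, ws k d S := by
    obtain ⟨M, hM⟩ : ∃ M : Finset V, ∀ v, v ∈ M ↔ 1 ≤ d v ∧ d v ≤ k :=
      ⟨univ.filter fun v => 1 ≤ d v ∧ d v ≤ k, by simp⟩
    rcases le_total M.card (2 * N + 1 + k) with c | c
    · exact ⟨_, c, main_Wt hd.1 M (fun v => (hM v).1)
        (small_Wt h hk hd hM ((Nat.add_le_add_right (Nat.mul_le_mul_right k c) _).trans hN))⟩
    · obtain ⟨W₁, s1, c1⟩ := exists_subset_card_eq (s := M) (n := N) (by omega)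
      obtain ⟨W₂, s2, c2⟩ := exists_subset_card_eq (s := M \ W₁) (n := N + 1)
        (by rw [card_sdiff_of_subset s1]; omega)
      obtain ⟨W₃, s3, c3⟩ := exists_subset_card_eq (s := (M \ W₁) \ W₂) (n := k)
        (by rw [card_sdiff_of_subset s2, card_sdiff_of_subset s1]; omega)
      have hW : ∀ v ∈ W₁ ∪ W₂ ∪ W₃, 1 ≤ d v ∧ d v ≤ k := fun v hv => (hM v).1
        (union_subset (union_subset s1 (s2.trans sdiff_subset))
          (s3.trans (sdiff_subset.trans sdiff_subset)) hv)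
      refine ⟨_, ?_, main_Wt hd.1 _ hW (big_Wt hk hd c1 c2 c3 hW
        (fun v hv => (mem_sdiff.1 (s2 hv)).2)
        fun v hv => ⟨(mem_sdiff.1 (mem_sdiff.1 (s3 hv)).1).2, (mem_sdiff.1 (s3 hv)).2⟩)⟩
      have := card_union_le (W₁ ∪ W₂) W₃
      have := card_union_le W₁ W₂
      omega
  obtain ⟨n, hn, e⟩ := key
  exact_mod_cast e.trans (Nat.mul_le_mul_right _ (Nat.pow_le_pow_right (by omega) hn))

end Pool.Agent.MP_c4b7b1_co.DS

end

section
namespace Pool.Agent.MP_c4b7b1_co.DS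

open Finset Real

lemma mono_In {α j a b c e a' b' c' e' m : ℝ} (hα : 0 ≤ α) (hj : 1 ≤ j) (h0 : 0 ≤ m)
    (ha : m ≤ a ∧ a ≤ a') (hb : m ≤ b ∧ b ≤ b') (hc : m ≤ c ∧ c ≤ c') (he : m ≤ e ∧ e ≤ e') :
    α ^ 2 * a ^ 2 + α * j * a * (b + c) + j * a * e + j * (j - 1) * (b * c) ≤
      α ^ 2 * a' ^ 2 + α * j * a' * (b' + c') + j * a' * e' + j * (j - 1) * (b' * c') := by
  have h1 := h0.trans ha.1
  have h2 := h0.trans hb.1
  have h3 := h0.trans hc.1
  have h4 := h0.trans he.1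
  have h5 := h1.trans ha.2
  have h6 := h2.trans hb.2
  have h7 : 0 ≤ j - 1 := by linarith
  have h8 : 0 ≤ j := by linarith
  obtain ⟨-, ha⟩ := ha
  obtain ⟨-, hb⟩ := hb
  obtain ⟨-, hc⟩ := hc
  obtain ⟨-, he⟩ := he
  gcongr

lemma mid_In {k j a b c e τ : ℝ} (h2 : 2 ≤ j) (hj : j ≤ k) (ha : 0 ≤ a) (hb : 0 ≤ b) (hc : 0 ≤ c)
    (he : 0 ≤ e) (hτ : 0 ≤ τ) (h : (k + 1) ^ 2 * τ ^ 2 = (k + 1 - j) ^ 2 * a ^ 2 +
      (k + 1 - j) * j * a * (b + c) + j * a * e + j * (j - 1) * (b * c)) :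
    (j - 2) * (a - 1) + 2 * (τ - 1) ≤
      j * ((k ^ 2 * a ^ 2 + k * b ^ 2 + k * c ^ 2 + e ^ 2) / (k + 1) ^ 2 / 2 - 1 / 2 -
        1 / (2000 * k ^ 2) * ((k ^ 2 * (a - 1) ^ 2 + k * (b - 1) ^ 2 + k * (c - 1) ^ 2 +
          (e - 1) ^ 2) / (k + 1) ^ 2)) := by
  have hk : 2 ≤ k := h2.trans hj
  have hD : 0 < (k + 1) ^ 2 := by positivity
  obtain ⟨ε, hε, hεε⟩ : ∃ ε : ℝ, 0 ≤ ε ∧ ε ^ 2 = (a - b) ^ 2 + (a - c) ^ 2 + (a - e) ^ 2 :=
    ⟨_, sqrt_nonneg _, sq_sqrt (by positivity)⟩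
  have b1 : (a - b) ^ 2 ≤ ε ^ 2 := by nlinarith [sq_nonneg (a - c), sq_nonneg (a - e)]
  have c1 : (a - c) ^ 2 ≤ ε ^ 2 := by nlinarith [sq_nonneg (a - b), sq_nonneg (a - e)]
  have e1 : (a - e) ^ 2 ≤ ε ^ 2 := by nlinarith [sq_nonneg (a - b), sq_nonneg (a - c)]
  have b2 := abs_le_of_sq_le_sq' b1 hε
  have c2 := abs_le_of_sq_le_sq' c1 hε
  have e2 := abs_le_of_sq_le_sq' e1 hε
  have t1 : τ ≤ a + ε := by
    have := mono_In (α := k + 1 - j) (j := j) (a' := a + ε) (b' := a + ε) (c' := a + ε)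
      (e' := a + ε) (by linarith) (by linarith) le_rfl ⟨ha, by linarith⟩ ⟨hb, by linarith⟩
      ⟨hc, by linarith⟩ ⟨he, by linarith⟩
    exact (abs_le_of_sq_le_sq' (le_of_mul_le_mul_left (by linarith) hD) (by linarith)).2
  have t2 : a - ε ≤ τ := by
    rcases le_total (a - ε) 0 with z | z
    · linarith
    have := mono_In (α := k + 1 - j) (j := j) (a := a - ε) (b := a - ε) (c := a - ε) (e := a - ε)
      (a' := a) (b' := b) (c' := c) (e' := e) (by linarith) (by linarith) z ⟨le_rfl, by linarith⟩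
      ⟨le_rfl, by linarith⟩ ⟨le_rfl, by linarith⟩ ⟨le_rfl, by linarith⟩
    exact (abs_le_of_sq_le_sq' (le_of_mul_le_mul_left (by linarith) hD) hτ).2
  have t3 : (a - τ) ^ 2 ≤ ε ^ 2 := sq_le_sq' (by linarith) (by linarith)
  have a3 : (a - 1) ^ 2 ≤ 2 * (τ - 1) ^ 2 + 2 * ε ^ 2 := by linarith [sq_nonneg (a - 2 * τ + 1)]
  have g : ∀ x : ℝ, (a - x) ^ 2 ≤ ε ^ 2 → (x - 1) ^ 2 ≤ 4 * (τ - 1) ^ 2 + 6 * ε ^ 2 :=
    fun x hx => by linarith [sq_nonneg (x - 2 * a + 1)]
  have d1 : (k ^ 2 * (a - 1) ^ 2 + k * (b - 1) ^ 2 + k * (c - 1) ^ 2 + (e - 1) ^ 2) / (k + 1) ^ 2 ≤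
      4 * (τ - 1) ^ 2 + 6 * ε ^ 2 := by
    rw [div_le_iff₀ hD]
    have u1 := mul_le_mul_of_nonneg_left (g a (by simpa using sq_nonneg ε)) (sq_nonneg k)
    have u2 := mul_le_mul_of_nonneg_left (g b b1) (show 0 ≤ k by linarith)
    have u3 := mul_le_mul_of_nonneg_left (g c c1) (show 0 ≤ k by linarith)
    linarith [g e e1]
  have d2 : j * (1 / (2000 * k ^ 2) * (4 * (τ - 1) ^ 2 + 6 * ε ^ 2)) ≤
      (τ - 1) ^ 2 + j * ε ^ 2 / (k + 1) ^ 2 / 2 := by
    have u1 : j * (1 / (2000 * k ^ 2)) * 4 ≤ 1 := by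
      rw [mul_one_div, div_mul_eq_mul_div, div_le_one (by positivity)]
      nlinarith
    have u2 : 1 / (2000 * k ^ 2) * 6 ≤ 1 / (k + 1) ^ 2 / 2 := by
      rw [div_div, div_mul_eq_mul_div, div_le_div_iff₀ (by positivity) (by positivity)]
      nlinarith
    have u3 := mul_le_mul_of_nonneg_right u1 (sq_nonneg (τ - 1))
    have u4 := mul_le_mul_of_nonneg_right u2 (show 0 ≤ j * ε ^ 2 by positivity)
    calc _ = j * (1 / (2000 * k ^ 2)) * 4 * (τ - 1) ^ 2 + 1 / (2000 * k ^ 2) * 6 * (j * ε ^ 2) := by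
          ring
      _ ≤ 1 * (τ - 1) ^ 2 + 1 / (k + 1) ^ 2 / 2 * (j * ε ^ 2) := add_le_add u3 u4
      _ = _ := by ring
  have d3 : (j - 2) * a ^ 2 + 2 * τ ^ 2 + j * ε ^ 2 / (k + 1) ^ 2 ≤
      j * ((k ^ 2 * a ^ 2 + k * b ^ 2 + k * c ^ 2 + e ^ 2) / (k + 1) ^ 2) := by
    rw [← mul_div_assoc, le_div_iff₀ hD, add_mul, div_mul_cancel₀ _ hD.ne', hεε]
    have u1 : 0 ≤ (k - j) * j * ((a - b) ^ 2 + (a - c) ^ 2) :=
      mul_nonneg (mul_nonneg (by linarith) (by linarith)) (by positivity)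
    have u2 : 0 ≤ j * (j - 1) * (b - c) ^ 2 :=
      mul_nonneg (mul_nonneg (by linarith) (by linarith)) (by positivity)
    linarith
  have d4 := mul_le_mul_of_nonneg_left (mul_le_mul_of_nonneg_left d1
    (show 0 ≤ 1 / (2000 * k ^ 2) by positivity)) (show 0 ≤ j by linarith)
  have d5 := mul_nonneg (show 0 ≤ j - 2 by linarith) (sq_nonneg (a - 1))
  linarith

theorem sIn : SIn := by
  intro k j a b c e hk hj ha hb hc he
  have hk' : (2 : ℝ) ≤ k := by exact_mod_cast hk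
  have hD : (0 : ℝ) < ((k : ℝ) + 1) ^ 2 := by positivity
  rcases j with _ | _ | i
  · simp [hD.ne']
  · refine (le_exp_sub_one _).trans (exp_le_exp.2 ?_)
    have u1 : 1 / (2000 * (k : ℝ) ^ 2) ≤ 1 / 2 := one_div_le_one_div_of_le two_pos (by nlinarith)
    have u2 := mul_le_mul_of_nonneg_right u1 (show 0 ≤ ((k : ℝ) ^ 2 * (a - 1) ^ 2 + k * (b - 1) ^ 2 +
      k * (c - 1) ^ 2 + (e - 1) ^ 2) / ((k : ℝ) + 1) ^ 2 by positivity)
    refine le_trans (le_of_eq ?_) (mul_le_mul_of_nonneg_left (sub_le_sub_left u2 _) (by positivity))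
    push_cast
    field_simp
    ring
  · rcases hj.eq_or_lt with hi | hi
    · obtain rfl : k = i + 1 := by omega
      refine le_trans (le_of_eq ?_) ((ineq_step_norm i (by omega) ha hb hc he ((i + 1 : ℕ) : ℝ)
        (by push_cast; ring)).trans (le_of_eq (congrArg exp ?_)))
      · rw [show i + 1 + 1 - 1 = i + 1 from rfl, show i + 1 + 1 - 2 = i from rfl]
        push_cast
        field_simp
        ring
      · push_cast
        field_simp
        ring
    · have hi' : ((i + 1 + 1 : ℕ) : ℝ) ≤ k := by exact_mod_cast (show i + 1 + 1 ≤ k by omega)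
      have h2 : (2 : ℝ) ≤ ((i + 1 + 1 : ℕ) : ℝ) := by exact_mod_cast (show 2 ≤ i + 1 + 1 by omega)
      have h3 : ((i + 1 + 1 : ℕ) : ℝ) - 2 = i := by push_cast; ring
      rw [show i + 1 + 1 - 1 = i + 1 from rfl, show i + 1 + 1 - 2 = i from rfl]
      generalize ((i + 1 + 1 : ℕ) : ℝ) = j at *
      have h4 : 0 ≤ (k : ℝ) + 1 - j := by linarith
      have h5 : 0 ≤ j - 1 := by linarith
      obtain ⟨τ, hτ, e1⟩ : ∃ τ : ℝ, 0 ≤ τ ∧ τ ^ 2 = (((k : ℝ) + 1 - j) ^ 2 * a ^ 2 +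
          ((k : ℝ) + 1 - j) * j * a * (b + c) + j * a * e + j * (j - 1) * (b * c)) /
            ((k : ℝ) + 1) ^ 2 := ⟨_, sqrt_nonneg _, sq_sqrt (by positivity)⟩
      have m := mid_In h2 hi' ha hb hc he hτ (by rw [e1]; field_simp)
      refine le_trans (le_of_eq (show _ = a ^ i * τ ^ 2 by rw [e1]; ring))
        ((mul_le_mul (pow_le_exp_mul ha i) (pow_le_exp_mul hτ 2) (by positivity)
          (by positivity)).trans ?_)
      rw [← exp_add, ← h3]
      exact exp_le_exp.2 (by exact_mod_cast m)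

end Pool.Agent.MP_c4b7b1_co.DS

end

section
namespace Pool.Agent.MP_c4b7b1_co.DS

open Finset Real

lemma e4_nonneg_Up4 (k j : ℕ) (t : Fin 4 → ℕ) : 0 ≤ e4 k j t :=
  mul_nonneg (wv_nonneg _ _ _) (wv_nonneg _ _ _)

lemma wv_zero_Up4 {k j : ℕ} (hj : j ≤ k + 1) : wv k j 0 = (k : ℝ) + 1 - j := by
  unfold wv
  rw [if_pos rfl, Nat.cast_sub hj]; push_cast; ring

lemma wv_one_Up4 (k j : ℕ) : wv k j 1 = √(k : ℝ) := by
  unfold wv
  rw [if_neg one_ne_zero]

lemma tbl_Up4 {k j : ℕ} (hk : 2 ≤ k) (hj : j ≤ k + 1) {a b c e : ℝ} (y : Fin 4 → ℝ)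
    (hy : ∀ l, 0 ≤ y l) (y0 : y 0 = k / (k + 1) * a) (y1 : y 1 = √(k : ℝ) / (k + 1) * b)
    (y2 : y 2 = √(k : ℝ) / (k + 1) * c) (y3 : y 3 = 1 / (k + 1) * e) :
    fT (U4 k j) (e4 k j) y ≤ ((k : ℝ) / (k + 1)) ^ j * ((k : ℝ) + 1) ^ 2 / j.factorial *
      ((((k : ℝ) + 1 - j) ^ 2 * a ^ j + ((k : ℝ) + 1 - j) * j * a ^ (j - 1) * (b + c) +
        j * a ^ (j - 1) * e + j * ((j : ℝ) - 1) * a ^ (j - 2) * (b * c)) / ((k : ℝ) + 1) ^ 2) := by
  have hc := e4_nonneg_Up4 k j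
  have w0 := wv_zero_Up4 hj
  have w1 := wv_one_Up4 k j
  obtain ⟨ρ, hρ⟩ : ∃ ρ, ρ = √(k : ℝ) := ⟨_, rfl⟩
  have hρρ : ρ ^ 2 = k := by rw [hρ, sq_sqrt (by positivity)]
  rw [← hρ] at y1 y2 w1
  have hk1 : (0 : ℝ) < (k : ℝ) + 1 := by positivity
  rcases j with _ | _ | i
  · refine (fT_le_tbl _ hc (![![0, 0, 0, 0]] : Fin 1 → Fin 4 → ℕ) ?_ hy).trans (le_of_eq ?_)
    · intro d hd
      rw [U4, mem_filter, mem_T4 (by omega), Fin.sum_univ_four] at hd
      exact ⟨0, vec4_eq (by omega) (by omega) (by omega) (by omega)⟩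
    · simp only [Fin.sum_univ_one, e4, mono, Fin.prod_univ_four, Matrix.cons_val_zero,
        Matrix.cons_val_one, Matrix.cons_val, add_zero, w0]
      norm_num
      field_simp
  · refine (fT_le_tbl _ hc (![![1, 0, 0, 0], ![0, 1, 0, 0], ![0, 0, 1, 0], ![0, 0, 0, 1]] :
      Fin 4 → Fin 4 → ℕ) ?_ hy).trans (le_of_eq ?_)
    · intro d hd
      rw [U4, mem_filter, mem_T4 (by omega), Fin.sum_univ_four] at hd
      have : (d 0 = 1) ∨ (d 1 = 1) ∨ (d 2 = 1) ∨ (d 3 = 1) := by omega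
      rcases this with h | h | h | h
      · exact ⟨0, vec4_eq (by omega) (by omega) (by omega) (by omega)⟩
      · exact ⟨1, vec4_eq (by omega) (by omega) (by omega) (by omega)⟩
      · exact ⟨2, vec4_eq (by omega) (by omega) (by omega) (by omega)⟩
      · exact ⟨3, vec4_eq (by omega) (by omega) (by omega) (by omega)⟩
    · simp only [Fin.sum_univ_four, e4, mono, Fin.prod_univ_four, Matrix.cons_val_zero,
        Matrix.cons_val_one, Matrix.cons_val, add_zero, zero_add, w0, w1, y0, y1, y2, y3]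
      norm_num
      field_simp
      rw [← hρρ]
      ring
  · obtain ⟨F, hF⟩ : ∃ F : ℝ, F = (i.factorial : ℝ) := ⟨_, rfl⟩
    have hF0 : 0 < F := by rw [hF]; positivity
    have f1 : ((i + 1).factorial : ℝ) = ((i : ℝ) + 1) * F := by
      rw [Nat.factorial_succ, hF]; push_cast; ring
    have f2 : ((i + 1 + 1).factorial : ℝ) = ((i : ℝ) + 2) * (((i : ℝ) + 1) * F) := by
      rw [Nat.factorial_succ, Nat.cast_mul, f1]; push_cast; ring
    refine (fT_le_tbl _ hc (![![i + 1 + 1, 0, 0, 0], ![i + 1, 1, 0, 0], ![i + 1, 0, 1, 0],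
      ![i + 1, 0, 0, 1], ![i, 1, 1, 0]] : Fin 5 → Fin 4 → ℕ) ?_ hy).trans (le_of_eq ?_)
    · intro d hd
      rw [U4, mem_filter, mem_T4 (by omega), Fin.sum_univ_four] at hd
      have : (d 3 = 0 ∧ d 1 = 0 ∧ d 2 = 0) ∨ (d 3 = 0 ∧ d 1 = 1 ∧ d 2 = 0) ∨
        (d 3 = 0 ∧ d 1 = 0 ∧ d 2 = 1) ∨ (d 3 = 1) ∨ (d 3 = 0 ∧ d 1 = 1 ∧ d 2 = 1) := by omega
      rcases this with h | h | h | h | h
      · exact ⟨0, vec4_eq (by omega) (by omega) (by omega) (by omega)⟩
      · exact ⟨1, vec4_eq (by omega) (by omega) (by omega) (by omega)⟩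
      · exact ⟨2, vec4_eq (by omega) (by omega) (by omega) (by omega)⟩
      · exact ⟨3, vec4_eq (by omega) (by omega) (by omega) (by omega)⟩
      · exact ⟨4, vec4_eq (by omega) (by omega) (by omega) (by omega)⟩
    · simp only [Fin.sum_univ_five, e4, mono, Fin.prod_univ_four, Matrix.cons_val_zero,
        Matrix.cons_val_one, Matrix.cons_val, add_zero, zero_add, w0, w1, y0, y1, y2, y3, f1, f2,
        ← hF, show i + 1 + 1 - 1 = i + 1 from rfl, show i + 1 + 1 - 2 = i from rfl]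
      push_cast
      simp only [mul_pow, div_pow, pow_succ, pow_zero, Nat.factorial_zero, Nat.factorial_one,
        Nat.cast_one]
      have hi1 : (0 : ℝ) < (i : ℝ) + 1 := by positivity
      have hi2 : (0 : ℝ) < (i : ℝ) + 2 := by positivity
      field_simp
      rw [← hρρ]
      ring

theorem sUp4 (h1 : SLap) (h2 : SIn) : SUp4 := by
  intro k hk
  have hk0 : (0 : ℝ) < k := by exact_mod_cast (by omega : 0 < k)
  have hk1 : (0 : ℝ) < (k : ℝ) + 1 := by positivity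
  obtain ⟨ρ, hρ⟩ : ∃ ρ, ρ = √(k : ℝ) := ⟨_, rfl⟩
  have hρ0 : 0 < ρ := by rw [hρ]; positivity
  have hρρ : ρ ^ 2 = k := by rw [hρ, sq_sqrt (by positivity)]
  obtain ⟨C, hC, H⟩ := h1 (Fin 4) (k + 1) (U4 k) (e4 k)
    ![(k : ℝ) / (k + 1), ρ / (k + 1), ρ / (k + 1), 1 / (k + 1)]
    (fun j => ((k : ℝ) / (k + 1)) ^ j * ((k : ℝ) + 1) ^ 2 / j.factorial)
    (1 / (2000 * (k : ℝ) ^ 2)) (e4_nonneg_Up4 k) (fun j t ht => (mem_filter.mp ht).2)
    (fun j => by positivity) (by positivity) (by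
      intro j hj y hy
      obtain ⟨a, ha⟩ : ∃ a, a = y 0 * (k + 1) / k := ⟨_, rfl⟩
      obtain ⟨b, hb⟩ : ∃ b, b = y 1 * (k + 1) / ρ := ⟨_, rfl⟩
      obtain ⟨c, hc'⟩ : ∃ c, c = y 2 * (k + 1) / ρ := ⟨_, rfl⟩
      obtain ⟨e, he⟩ : ∃ e, e = y 3 * (k + 1) := ⟨_, rfl⟩
      have ha0 : 0 ≤ a := by have := hy 0; rw [ha]; positivity
      have hb0 : 0 ≤ b := by have := hy 1; rw [hb]; positivity
      have hc0 : 0 ≤ c := by have := hy 2; rw [hc']; positivity
      have he0 : 0 ≤ e := by have := hy 3; rw [he]; positivity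
      have y0 : y 0 = k / (k + 1) * a := by rw [ha]; field_simp
      have y1 : y 1 = ρ / (k + 1) * b := by rw [hb]; field_simp
      have y2 : y 2 = ρ / (k + 1) * c := by rw [hc']; field_simp
      have y3 : y 3 = 1 / (k + 1) * e := by rw [he]; field_simp
      refine (tbl_Up4 hk hj y hy y0 (hρ ▸ y1) (hρ ▸ y2) y3).trans ?_
      refine (mul_le_mul_of_nonneg_left (h2 k j a b c e hk hj ha0 hb0 hc0 he0)
        (by positivity)).trans (le_of_eq ?_)
      congr 3
      have s1 : ∑ l, y l ^ 2 =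
          ((k : ℝ) ^ 2 * a ^ 2 + k * b ^ 2 + k * c ^ 2 + e ^ 2) / ((k : ℝ) + 1) ^ 2 := by
        rw [Fin.sum_univ_four, y0, y1, y2, y3]
        simp only [mul_pow, div_pow, hρρ]
        field_simp
      have s2 : ∑ l, (y l - (![(k : ℝ) / (k + 1), ρ / (k + 1), ρ / (k + 1), 1 / (k + 1)] :
          Fin 4 → ℝ) l) ^ 2 = ((k : ℝ) ^ 2 * (a - 1) ^ 2 + k * (b - 1) ^ 2 +
          k * (c - 1) ^ 2 + (e - 1) ^ 2) / ((k : ℝ) + 1) ^ 2 := by
        rw [Fin.sum_univ_four, y0, y1, y2, y3]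
        simp only [Matrix.cons_val_zero, Matrix.cons_val_one, Matrix.cons_val]
        rw [← mul_sub_one, ← mul_sub_one, ← mul_sub_one, ← mul_sub_one]
        simp only [mul_pow, div_pow, hρρ]
        field_simp
      rw [s1, s2])
  refine ⟨C, hC, fun V _ _ d hd hs => (H V d hd hs).trans (le_of_eq ?_)⟩
  congr 1
  unfold Q
  rw [prod_div_distrib, prod_mul_distrib, prod_pow_eq_pow_sum, prod_const, card_univ, mul_pow,
    pow_right_comm (√((k : ℝ) / (k + 1))), sq_sqrt (by positivity),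
    pow_right_comm ((k : ℝ) + 1) 2]
  ring

end Pool.Agent.MP_c4b7b1_co.DS

end

section
namespace Pool.Agent.MP_c4b7b1_co.DS

open Finset Real

lemma single_Up9 {L : Type} [Fintype L] [DecidableEq L] {d : L → ℕ} (h : ∑ l, d l = 1) :
    ∃ i, Pi.single i 1 = d := by
  obtain ⟨i, -, hi⟩ := exists_ne_zero_of_sum_ne_zero (s := univ) (f := d) (by omega)
  rw [← add_sum_erase _ _ (mem_univ i)] at h
  refine ⟨i, funext fun l => ?_⟩
  rcases eq_or_ne l i with rfl | hl
  · rw [Pi.single_eq_same]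
    omega
  · rw [Pi.single_eq_of_ne hl]
    exact (sum_eq_zero_iff.1 (by omega) l (mem_erase.2 ⟨hl, mem_univ _⟩)).symm

lemma mono_Up9 {L : Type} [Fintype L] [DecidableEq L] (i : L) (y : L → ℝ) :
    mono (Pi.single i 1) y = y i := by
  unfold mono
  rw [Fintype.prod_eq_single i fun l hl => by simp [Pi.single_eq_of_ne hl]]
  simp

lemma two_Up9 {m q x : ℝ} (hm : 0 ≤ m) (hq : m ^ 2 ≤ q) (hx : 2 * x ≤ 3 * m ^ 2 + q) :
    x ≤ 2 * exp (2 * (q / 2 - 1 / 2 - 1 / 48 * (q - 2 * m + 1))) := by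
  obtain ⟨τ, t0, tt⟩ : ∃ τ : ℝ, 0 ≤ τ ∧ τ ^ 2 = (3 * m ^ 2 + q) / 4 :=
    ⟨_, sqrt_nonneg _, sq_sqrt (by nlinarith [sq_nonneg m])⟩
  have h1 : m ≤ τ := le_of_pow_le_pow_left₀ (n := 2) (by norm_num) t0 (by linarith)
  have h2 := pow_le_exp_mul t0 2
  have h3 : (τ - m) ^ 2 ≤ (q - m ^ 2) / 4 := by
    have := mul_le_mul_of_nonneg_left h1 hm
    linarith only [this, tt]
  have h4 : (m - 1) ^ 2 ≤ 2 * (τ - 1) ^ 2 + 2 * (τ - m) ^ 2 := by
    linarith only [sq_nonneg (2 * τ - m - 1)]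
  have h5 : exp ((2 : ℕ) * (τ - 1)) ≤ exp (2 * (q / 2 - 1 / 2 - 1 / 48 * (q - 2 * m + 1))) := by
    apply exp_le_exp.mpr
    push_cast
    linarith only [sq_nonneg (τ - 1), h3, h4, tt, hq]
  have h6 := h2.trans h5
  linarith only [h6, tt, hx]

lemma dev_Up9 (y : Fin 9 → ℝ) :
    ∑ l, (y l - 1 / 3) ^ 2 = ∑ l, y l ^ 2 - 2 * ((∑ l, y l) / 3) + 1 := by
  rw [sum9, sum9, sum9]
  ring

lemma one_Up9 (y : Fin 9 → ℝ) (hy : ∀ l, 0 ≤ y l) : fT (U9 1) (fun _ => 1) y ≤
    3 * exp ((∑ l, y l ^ 2) / 2 - 1 / 2 - 1 / 48 * ∑ l, (y l - 1 / 3) ^ 2) := by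
  refine (fT_le_tbl _ (fun _ => zero_le_one) (fun i : Fin 9 => Pi.single i 1)
    (fun d hd => single_Up9 (mem_filter.mp hd).2) hy).trans ?_
  simp only [mono_Up9, one_mul]
  have h1 := le_exp_sub_one ((∑ l, y l) / 3)
  have h2 : 0 ≤ ∑ l, (y l - 1 / 3) ^ 2 := sum_nonneg fun _ _ => sq_nonneg _
  have h3 := dev_Up9 y
  have h4 : exp ((∑ l, y l) / 3 - 1) ≤
      exp ((∑ l, y l ^ 2) / 2 - 1 / 2 - 1 / 48 * ∑ l, (y l - 1 / 3) ^ 2) :=
    exp_le_exp.mpr (by linarith)
  linarith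

lemma rook_Up9 (y : Fin 9 → ℝ) : ∑ i : Fin 3 × Fin 6, 1 * mono (tb1 i.1 i.2) y =
    y 4 * y 8 + y 5 * y 7 + y 3 * y 8 + y 5 * y 6 + y 3 * y 7 + y 4 * y 6 +
    (y 0 * y 8 + y 0 * y 7 + y 1 * y 8 + y 1 * y 6 + y 2 * y 7 + y 2 * y 6) +
    (y 0 * y 4 + y 0 * y 5 + y 1 * y 3 + y 1 * y 5 + y 2 * y 3 + y 2 * y 4) := by
  rw [Fintype.sum_prod_type, Fin.sum_univ_three]
  simp [Fin.sum_univ_six, mono, prod9, tb1]

lemma sec_Up9 (y : Fin 9 → ℝ) (hy : ∀ l, 0 ≤ y l) : fT (U9 2) (fun _ => 1) y ≤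
    2 * exp (2 * ((∑ l, y l ^ 2) / 2 - 1 / 2 - 1 / 48 * ∑ l, (y l - 1 / 3) ^ 2)) := by
  refine (fT_le_tbl _ (fun _ => zero_le_one) (fun i : Fin 3 × Fin 6 => tb1 i.1 i.2)
    (fun d hd => (tb_cover' (mem_filter.mp hd).1).2 (by rw [(mem_filter.mp hd).2])) hy).trans ?_
  rw [rook_Up9, dev_Up9]
  refine two_Up9 (div_nonneg (sum_nonneg fun l _ => hy l) (by norm_num)) ?_ ?_
  · have := sq_sum_le_card_mul_sum_sq (s := univ) (f := y)
    rw [card_univ, Fintype.card_fin] at this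
    push_cast at this
    linarith
  · rw [sum9, sum9]
    linarith only [sq_nonneg (y 0 + y 1 + y 2 - (y 3 + y 4 + y 5)),
      sq_nonneg (y 0 + y 1 + y 2 - (y 6 + y 7 + y 8)),
      sq_nonneg (y 3 + y 4 + y 5 - (y 6 + y 7 + y 8)),
      sq_nonneg (y 0 + y 3 + y 6 - (y 1 + y 4 + y 7)),
      sq_nonneg (y 0 + y 3 + y 6 - (y 2 + y 5 + y 8)),
      sq_nonneg (y 1 + y 4 + y 7 - (y 2 + y 5 + y 8))]

lemma thi_Up9 (y : Fin 9 → ℝ) (hy : ∀ l, 0 ≤ y l) : fT (U9 3) (fun _ => 1) y ≤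
    2 / 9 * exp (3 * ((∑ l, y l ^ 2) / 2 - 1 / 2 - 1 / 48 * ∑ l, (y l - 1 / 3) ^ 2)) := by
  obtain ⟨r, hr, hrr⟩ : ∃ r : ℝ, 0 < r ∧ r ^ 2 = 1 / 3 :=
    ⟨√(1 / 3), sqrt_pos.2 (by norm_num), sq_sqrt (by norm_num)⟩
  refine (fT_le_tbl _ (fun _ => zero_le_one) tb0
    (fun d hd => (tb_cover' (mem_filter.mp hd).1).1 (mem_filter.mp hd).2) hy).trans ?_
  have hz : ∀ l, 0 ≤ 3 * r * y l := fun l => mul_nonneg (by linarith) (hy l)
  have key := ineq_per (hz 0) (hz 1) (hz 2) (hz 3) (hz 4) (hz 5) (hz 6) (hz 7) (hz 8) hr.le hrr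
  have e1 : ∀ l, (3 * r * y l) ^ 2 = 3 * y l ^ 2 := fun l => by
    linear_combination (9 * y l ^ 2) * hrr
  have e2 : ∀ l, (3 * r * y l - r) ^ 2 = 3 * (y l - 1 / 3) ^ 2 := fun l => by
    linear_combination (9 * (y l - 1 / 3) ^ 2) * hrr
  have e3 : ∑ i, 1 * mono (tb0 i) y = per (y 0) (y 1) (y 2) (y 3) (y 4) (y 5) (y 6) (y 7) (y 8) := by
    simp [Fin.sum_univ_six, mono, prod9, tb0, per]
  have e4 : per (3 * r * y 0) (3 * r * y 1) (3 * r * y 2) (3 * r * y 3) (3 * r * y 4) (3 * r * y 5)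
      (3 * r * y 6) (3 * r * y 7) (3 * r * y 8) =
      9 * r * per (y 0) (y 1) (y 2) (y 3) (y 4) (y 5) (y 6) (y 7) (y 8) := by
    unfold per
    linear_combination (27 * r * (y 0 * y 4 * y 8 + y 0 * y 5 * y 7 + y 1 * y 3 * y 8 +
      y 1 * y 5 * y 6 + y 2 * y 3 * y 7 + y 2 * y 4 * y 6)) * hrr
  simp only [e1, e2, e4] at key
  rw [e3]
  refine le_of_mul_le_mul_left (key.trans (le_of_eq ?_)) (by linarith : 0 < 9 * r)
  rw [← mul_assoc, show 9 * r * (2 / 9) = 2 * r by ring]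
  congr 2
  rw [sum9, sum9]
  ring

theorem sUp9 (h : SLap) : SUp9 := by
  refine h (Fin 9) 3 U9 (fun _ _ => 1) (fun _ => 1 / 3)
    (fun j => (Nat.choose 3 j : ℝ) ^ 2 * j.factorial / 3 ^ j) (1 / 48) (fun _ _ => zero_le_one)
    (fun j t ht => (mem_filter.mp ht).2) (fun j => by positivity) (by norm_num) fun j hj y hy => ?_
  interval_cases j
  · refine (fT_le_tbl _ (fun _ => zero_le_one) (fun _ : Fin 1 => 0) (fun d hd => ⟨0,
      funext fun l => (sum_eq_zero_iff.1 (mem_filter.mp hd).2 l (mem_univ _)).symm⟩) hy).trans ?_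
    simp [mono]
  · refine (one_Up9 y hy).trans (le_of_eq ?_)
    norm_num
  · refine (sec_Up9 y hy).trans (le_of_eq ?_)
    norm_num [Nat.choose, Nat.factorial]
  · refine (thi_Up9 y hy).trans (le_of_eq ?_)
    norm_num [Nat.choose, Nat.factorial]

end Pool.Agent.MP_c4b7b1_co.DS

end

section
namespace Pool.Agent.MP_c4b7b1_co.DS

open Finset Real

section aux_Fm

variable {V : Type} [Fintype V] [DecidableEq V]

/-- weight of a matching with support `S` -/
noncomputable def w_Fm (k : ℕ) (d : V → ℕ) (S : Finset V) : ℝ :=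
  ∏ v, if v ∈ S then √(k : ℝ) else ((k + 1 - d v : ℕ) : ℝ)

lemma w_nonneg_Fm (k : ℕ) (d : V → ℕ) (S : Finset V) : 0 ≤ w_Fm k d S :=
  prod_nonneg fun v _ => by split_ifs <;> positivity

lemma inj_Fm (k N : ℕ) (d : V → ℕ) :
    ∑ S ∈ goods k N d, ∑ G ∈ es k (low d S), ((pms S G).card : ℝ) * w_Fm k d S ≤
      ∑ x ∈ prs k d, wp k d x.2 := by
  classical
  have hw : ∀ M : SimpleGraph V, 0 ≤ wp k d M := fun M => prod_nonneg fun v _ => wv_nonneg _ _ _
  rw [← sum_fiberwise_of_maps_to (s := prs k d) (t := univ)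
    (g := fun x => univ.filter fun v => deg x.2 v = 1) (fun _ _ => mem_univ _)]
  refine le_trans (sum_le_sum fun S hS => ?_) (sum_le_sum_of_subset_of_nonneg (subset_univ _)
    fun S _ _ => sum_nonneg fun x _ => hw _)
  have h1 := (mem_goods.1 hS).2.2.1
  have e : ∑ G ∈ es k (low d S), ((pms S G).card : ℝ) * w_Fm k d S =
      ∑ G ∈ es k (low d S), ∑ M ∈ pms S G, wp k d M := by
    refine sum_congr rfl fun G _ => ?_
    rw [← nsmul_eq_mul, ← sum_const]
    refine sum_congr rfl fun M hM => prod_congr rfl fun v _ => ?_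
    rw [(mem_pms.1 hM).1 v]
    unfold wv ind
    by_cases hv : v ∈ S <;> simp [hv]
  rw [e, ← sum_finset_product' (univ.filter fun x : SimpleGraph V × SimpleGraph V =>
    x.1 ∈ es k (low d S) ∧ x.2 ∈ pms S x.1) _ (fun G => pms S G) (by simp)
    (f := fun _ M => wp k d M)]
  refine sum_le_sum_of_subset_of_nonneg (fun x hx => ?_) fun x _ _ => hw _
  obtain ⟨h2, h3⟩ := (mem_filter.1 hx).2
  obtain ⟨h4, h5⟩ := mem_es.1 h2
  obtain ⟨h6, h7⟩ := mem_pms.1 h3
  refine mem_filter.2 ⟨mem_prs.2 ⟨h5, fun v => ?_, h7, fun v => ?_⟩, ?_⟩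
  · rw [h6]; unfold ind; split_ifs <;> omega
  · rw [h4, h6]; unfold low ind
    split_ifs with hv
    · have := h1 v hv; omega
    · rfl
  · ext v
    rw [mem_filter, h6]
    unfold ind
    by_cases hv : v ∈ S <;> simp [hv]

lemma prod_Fm (k : ℕ) (d : V → ℕ) (S : Finset V) (h : ∀ v ∈ S, 1 ≤ d v) :
    w_Fm k d S / ∏ v, ((low d S v).factorial : ℝ) =
      √(k : ℝ) ^ S.card * (ws k d S : ℝ) / ∏ v, ((d v).factorial : ℝ) := by
  have e : √(k : ℝ) ^ S.card = ∏ v, if v ∈ S then √(k : ℝ) else 1 := by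
    rw [prod_ite_mem_eq, prod_const]
  rw [e, ws, Nat.cast_prod, ← prod_mul_distrib, ← prod_div_distrib, w_Fm, ← prod_div_distrib]
  refine prod_congr rfl fun v _ => ?_
  unfold low
  split_ifs with hv
  · obtain ⟨j, hj⟩ : ∃ j, d v = j + 1 := ⟨d v - 1, by have := h v hv; omega⟩
    rw [hj, Nat.add_sub_cancel, Nat.factorial_succ]
    push_cast
    field_simp
  · rw [one_mul]

lemma an_Fm (k : ℕ) (d : V → ℕ) (S : Finset V) (h : ∀ v ∈ S, 1 ≤ d v) :
    Q d * √((k : ℝ) / (k + 1)) ^ (∑ v, d v) * (ws k d S : ℝ) ≤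
      w_Fm k d S * Q (low d S) * lap S.card := by
  have hM := sum_low_add d S h
  set M := ∑ v, d v with hMd
  set M' := ∑ v, low d S v with hM'
  set z := √(M : ℝ) * √(1 / ((k : ℝ) + 1)) with hz
  set x := √(k : ℝ) * z with hx
  have hk : (0 : ℝ) < k + 1 := by positivity
  have hx' : √(M : ℝ) * √((k : ℝ) / (k + 1)) = x := by
    rw [hx, hz, div_eq_mul_one_div, sqrt_mul (Nat.cast_nonneg k)]; ring
  have hs : x ^ 2 + z ^ 2 = M := by
    rw [hx, hz, mul_pow, mul_pow, sq_sqrt (Nat.cast_nonneg k), sq_sqrt (Nat.cast_nonneg M),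
      sq_sqrt (by positivity)]
    field_simp
  have h1 := lap_mul_ge M' S.card (x := x) (z := z) (by positivity) (by positivity)
  rw [hs] at h1
  have e1 : w_Fm k d S * Q (low d S) * lap S.card =
      √(k : ℝ) ^ S.card * (ws k d S : ℝ) / (∏ v, ((d v).factorial : ℝ)) * (lap M' * lap S.card) := by
    rw [← prod_Fm k d S h, Q]; ring
  have e2 : Q d * √((k : ℝ) / (k + 1)) ^ M * (ws k d S : ℝ) =
      √(k : ℝ) ^ S.card * (ws k d S : ℝ) / (∏ v, ((d v).factorial : ℝ)) *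
        (x ^ M' * z ^ S.card * exp (-(M : ℝ) / 2)) := by
    have : √(M : ℝ) ^ M * √((k : ℝ) / (k + 1)) ^ M = x ^ M' * (√(k : ℝ) ^ S.card * z ^ S.card) := by
      rw [← mul_pow, ← mul_pow, hx', ← hx, ← pow_add, hM]
    rw [Q, ← hMd, lap]
    calc _ = (√(M : ℝ) ^ M * √((k : ℝ) / (k + 1)) ^ M) * exp (-(M : ℝ) / 2) * (ws k d S : ℝ) /
          ∏ v, ((d v).factorial : ℝ) := by ring
      _ = _ := by rw [this]; ring
  rw [e1, e2]
  exact mul_le_mul_of_nonneg_left h1 (by positivity)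

end aux_Fm

theorem sFm (h1 : SPma) (h2 : SWt) : SFm := by
  intro k hk ⟨C1, hC1, N1, H1⟩
  obtain ⟨C2, hC2, N2, H2⟩ := h1 k
  obtain ⟨C3, hC3, N3, H3⟩ := h2 k (max N1 N2) hk
  refine ⟨C3 * (C1 * C2), by positivity, N3, fun V _ _ d hd hN => ?_⟩
  have hQ := (Q_pos d).le
  calc _ = Q d * √((k : ℝ) / (k + 1)) ^ (∑ v, d v) * ((k : ℝ) + 1) ^ Fintype.card V := by ring
    _ ≤ Q d * √((k : ℝ) / (k + 1)) ^ (∑ v, d v) *
          (C3 * ∑ S ∈ goods k (max N1 N2) d, (ws k d S : ℝ)) :=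
        mul_le_mul_of_nonneg_left (H3 V d hd hN) (by positivity)
    _ = C3 * ∑ S ∈ goods k (max N1 N2) d,
          Q d * √((k : ℝ) / (k + 1)) ^ (∑ v, d v) * (ws k d S : ℝ) := by
        rw [← mul_sum]; ring
    _ ≤ C3 * ((C1 * C2) * ∑ S ∈ goods k (max N1 N2) d,
          ∑ G ∈ es k (low d S), ((pms S G).card : ℝ) * w_Fm k d S) := by
        refine mul_le_mul_of_nonneg_left ?_ hC3.le
        rw [mul_sum]
        refine sum_le_sum fun S hS => ?_
        obtain ⟨g1, g2, g3, g4, g5⟩ := mem_goods.1 hS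
        have hw := w_nonneg_Fm k d S
        have a1 := H1 V (low d S) g4 ((le_max_left _ _).trans g5)
        have a2 : ((es k (low d S)).card : ℝ) * lap S.card ≤
            C2 * ∑ G ∈ es k (low d S), ((pms S G).card : ℝ) := by
          rw [mul_sum, ← nsmul_eq_mul, ← sum_const]
          exact sum_le_sum fun G hG =>
            H2 V S G (UM.deg_le (mem_es.1 hG).2) g1 ((le_max_right _ _).trans g2)
        rw [← sum_mul]
        calc _ ≤ w_Fm k d S * Q (low d S) * lap S.card := an_Fm k d S g3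
          _ ≤ w_Fm k d S * (C1 * (es k (low d S)).card) * lap S.card :=
            mul_le_mul_of_nonneg_right (mul_le_mul_of_nonneg_left a1 hw) (lap_pos _).le
          _ = w_Fm k d S * C1 * ((es k (low d S)).card * lap S.card) := by ring
          _ ≤ w_Fm k d S * C1 * (C2 * ∑ G ∈ es k (low d S), ((pms S G).card : ℝ)) :=
            mul_le_mul_of_nonneg_left a2 (by positivity)
          _ = _ := by ring
    _ ≤ C3 * ((C1 * C2) * ∑ x ∈ prs k d, wp k d x.2) :=
        mul_le_mul_of_nonneg_left (mul_le_mul_of_nonneg_left (inj_Fm k _ d) (by positivity)) hC3.le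
    _ = _ := by ring

end Pool.Agent.MP_c4b7b1_co.DS

end

section
namespace Pool.Agent.MP_c4b7b1_co.DS

open Finset Real

section aux

variable {V : Type} [Fintype V] [DecidableEq V]

lemma deg_sup_Col {ι : Type} [DecidableEq ι] (s : Finset ι) (F : ι → SimpleGraph V) (v : V) :
    deg (s.sup F) v ≤ ∑ i ∈ s, deg (F i) v := by
  induction s using Finset.induction_on with
  | empty => simp [deg_bot]
  | @insert a s ha ih =>
    rw [sup_insert, sum_insert ha]
    exact (deg_sup_le _ _ v).trans (Nat.add_le_add_left ih _)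

lemma count_Col (k N : ℕ) (d : V → ℕ) :
    ∑ S ∈ goods k N d, ∑ F ∈ col k (low d S), (pms S (univ.sup F)).card ≤
      (col (k + 1) d).card := by
  classical
  simp only [← card_sigma]
  refine card_le_card_of_injOn (fun x => (Fin.cons x.2.2 x.2.1 : Fin (k + 1) → SimpleGraph V))
    (fun x hx => ?_) fun x hx y hy e => ?_
  · obtain ⟨S, F, M⟩ := x
    simp only [mem_coe, mem_sigma, mem_goods, mem_col, mem_pms] at hx
    obtain ⟨h1, ⟨h2, h3, h4⟩, h5, h6⟩ := hx
    have h7 : ∀ i, Disjoint (F i) M := fun i => h6.mono_left (le_sup (f := F) (mem_univ i))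
    refine mem_coe.2 (mem_col.2 ⟨fun i => ?_, fun i j => ?_, fun v => ?_⟩)
    · refine Fin.cases (fun v => ?_) h2 i
      change deg M v ≤ 1
      rw [h5, ind]
      split_ifs <;> omega
    · refine Fin.cases ?_ (fun i => ?_) i <;> refine Fin.cases ?_ (fun j => ?_) j
      · exact fun h => absurd rfl h
      · exact fun _ => (h7 j).symm
      · exact fun _ => h7 i
      · exact fun h => h3 i j fun e => h (congrArg _ e)
    · rw [Fin.sum_univ_succ]
      simp only [Fin.cons_zero, Fin.cons_succ]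
      rw [h4, h5, ind, low]
      split_ifs with hv
      · have := h1.2.2.1 v hv
        omega
      · omega
  · obtain ⟨S, F, M⟩ := x
    obtain ⟨S', F', M'⟩ := y
    simp only [mem_coe, mem_sigma, mem_pms] at hx hy
    obtain ⟨rfl, rfl⟩ : M = M' ∧ F = F' := Fin.cons_injective2 e
    obtain rfl : S = S' := by
      ext v
      have := (hx.2.2.1 v).symm.trans (hy.2.2.1 v)
      simp only [ind] at this
      split_ifs at this <;> simp_all
    rfl

lemma choose_Col (k : ℕ) (d : V → ℕ) (S : Finset V) (h : ∀ v ∈ S, 1 ≤ d v) :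
    (∏ v, k.choose (low d S v)) * (k + 1) ^ Fintype.card V =
      ws k d S * ∏ v, (k + 1).choose (d v) := by
  rw [ws, ← prod_mul_distrib, ← card_univ, ← prod_const, ← prod_mul_distrib]
  refine prod_congr rfl fun v _ => ?_
  rw [low]
  split_ifs with hv
  · obtain ⟨e, he⟩ : ∃ e, d v = e + 1 := ⟨d v - 1, by have := h v hv; omega⟩
    rw [he, Nat.add_sub_cancel, mul_comm, Nat.add_one_mul_choose_eq, mul_comm]
  · rw [Nat.choose_mul_succ_eq, mul_comm]

end aux

lemma lap_Col (k a b : ℕ) (hk : 1 ≤ k) :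
    lap (a + b) * √(1 / ((k + 1 : ℕ) : ℝ)) ^ (a + b) ≤ lap a * √(1 / (k : ℝ)) ^ a * lap b := by
  have k0 : (0 : ℝ) < k := by exact_mod_cast hk
  obtain ⟨M, hM⟩ : ∃ M : ℝ, M = ((a + b : ℕ) : ℝ) := ⟨_, rfl⟩
  have M0 : 0 ≤ M := hM ▸ Nat.cast_nonneg _
  have h := lap_mul_ge a b (sqrt_nonneg (M * k / (k + 1))) (sqrt_nonneg (M / (k + 1)))
  rw [sq_sqrt (by positivity), sq_sqrt (by positivity),
    show M * k / (k + 1) + M / (k + 1) = M by field_simp] at h
  have e1 : √(M * k / (k + 1)) * √(1 / (k : ℝ)) = √(M / (k + 1)) := by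
    rw [← sqrt_mul (by positivity)]
    congr 1
    field_simp
  have e2 : √M * √(1 / ((k + 1 : ℕ) : ℝ)) = √(M / (k + 1)) := by
    rw [← sqrt_mul M0, mul_one_div]
    push_cast
    rfl
  have h' := mul_le_mul_of_nonneg_right h (pow_nonneg (sqrt_nonneg (1 / (k : ℝ))) a)
  calc _ = √(M * k / (k + 1)) ^ a * √(M / (k + 1)) ^ b * exp (-M / 2) * √(1 / (k : ℝ)) ^ a := by
        rw [lap, ← hM, mul_right_comm, ← mul_pow, e2, pow_add]
        nth_rewrite 1 [← e1]
        rw [mul_pow]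
        ring
    _ ≤ _ := by linarith

lemma one_Col : SCol 1 := by
  classical
  refine ⟨2, two_pos, 0, fun V _ _ d hd _ => ?_⟩
  obtain ⟨h1, ⟨m, hm⟩, -⟩ := hd
  have e1 : (fun v => if v ∈ univ.filter (fun v => d v = 1) then 1 else 0) = d := by
    funext v
    have := h1 v
    simp only [mem_filter, mem_univ, true_and]
    split_ifs <;> omega
  have e2 : (univ.filter (fun v => d v = 1)).card = 2 * m := by
    rw [two_mul, ← hm, ← e1, sum_ite_mem_eq, e1, card_eq_sum_ones]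
  have e3 := pm_le_card _ _ e2
  rw [e1] at e3
  have e4 : (gset d).card ≤ (col 1 d).card :=
    card_le_card_of_injOn (fun G _ => G) (fun G hG => mem_coe.2 (mem_col.2
      ⟨fun _ v => (mem_gset.1 hG v).trans_le (h1 v), fun i j h => absurd (Subsingleton.elim i j) h,
        fun v => by simpa using mem_gset.1 hG v⟩)) fun G _ G' _ e => congrFun e 0
  have e5 : ∏ v, ((Nat.choose 1 (d v) : ℕ) : ℝ) = 1 := prod_eq_one fun v _ => by
    have := h1 v
    obtain h | h : d v = 0 ∨ d v = 1 := by omega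
    all_goals simp [h]
  have e6 : (pm (2 * m) : ℝ) ≤ (col 1 d).card := by exact_mod_cast e3.trans e4
  have e7 := lap_le_pm m
  rw [e5, hm, ← two_mul]
  simp only [Nat.cast_one, div_one, sqrt_one, one_pow, mul_one]
  linarith

lemma step_Col (h1 : SPma) (h2 : SWt) (k : ℕ) (hk : 1 ≤ k) (h : SCol k) : SCol (k + 1) := by
  obtain ⟨C₁, c1, N₁, h⟩ := h
  obtain ⟨C₂, c2, N₂, h1⟩ := h1 k
  obtain ⟨C₃, c3, N₃, h2⟩ := h2 k (N₁ + N₂) hk
  refine ⟨C₃ * (C₁ * C₂), by positivity, N₃, fun V _ _ d hd hN => ?_⟩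
  obtain ⟨A, hA⟩ : ∃ A : ℝ, A = lap (∑ v, d v) * (√(1 / ((k + 1 : ℕ) : ℝ)) ^ (∑ v, d v) *
    ∏ v, ((k + 1).choose (d v) : ℝ)) := ⟨_, rfl⟩
  rw [← hA]
  have A0 : 0 ≤ A := by
    have := lap_pos (∑ v, d v)
    rw [hA]
    positivity
  have K0 : (0 : ℝ) < ((k : ℝ) + 1) ^ Fintype.card V := by positivity
  have e1 : ∀ S ∈ goods k (N₁ + N₂) d, A * (ws k d S : ℝ) ≤
      C₁ * C₂ * ((k : ℝ) + 1) ^ Fintype.card V *
        ∑ F ∈ col k (low d S), ((pms S (univ.sup F)).card : ℝ) := fun S hS => by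
    obtain ⟨g1, g2, g3, g4, g5⟩ := mem_goods.1 hS
    have a1 := h V (low d S) g4 (by omega)
    have a2 : ((col k (low d S)).card : ℝ) * lap S.card ≤
        C₂ * ∑ F ∈ col k (low d S), ((pms S (univ.sup F)).card : ℝ) := by
      rw [mul_sum, ← nsmul_eq_mul]
      refine card_nsmul_le_sum _ _ _ fun F hF => h1 V S _ (fun v => ?_) g1 (by omega)
      exact (deg_sup_Col _ F v).trans (((mem_col.1 hF).2.2 v).trans_le (g4.1 v))
    have a3 := lap_Col k (∑ v, low d S v) S.card hk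
    rw [sum_low_add d S g3] at a3
    have a4 : (∏ v, (k.choose (low d S v) : ℝ)) * ((k : ℝ) + 1) ^ Fintype.card V =
        (ws k d S : ℝ) * ∏ v, ((k + 1).choose (d v) : ℝ) := by
      exact_mod_cast choose_Col k d S g3
    have a5 : 0 ≤ ∏ v, (k.choose (low d S v) : ℝ) := by positivity
    have a6 := mul_le_mul_of_nonneg_right a3 a5
    have a7 := mul_le_mul_of_nonneg_right a1 (lap_pos S.card).le
    have a8 := mul_le_mul_of_nonneg_left a2 c1.le
    have a9 : lap (∑ v, d v) * √(1 / ((k + 1 : ℕ) : ℝ)) ^ (∑ v, d v) *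
        ∏ v, (k.choose (low d S v) : ℝ) ≤
        C₁ * C₂ * ∑ F ∈ col k (low d S), ((pms S (univ.sup F)).card : ℝ) := by linarith
    have a10 := mul_le_mul_of_nonneg_right a9 K0.le
    rw [mul_assoc _ (∏ v, (k.choose (low d S v) : ℝ)), a4] at a10
    rw [hA]
    linarith
  have e2 := sum_le_sum e1
  rw [← mul_sum, ← mul_sum] at e2
  have e3 : ∑ S ∈ goods k (N₁ + N₂) d, ∑ F ∈ col k (low d S),
      ((pms S (univ.sup F)).card : ℝ) ≤ (col (k + 1) d).card := by
    exact_mod_cast count_Col k (N₁ + N₂) d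
  have e4 := mul_le_mul_of_nonneg_left (h2 V d hd hN) A0
  have e5 := mul_le_mul_of_nonneg_left (e2.trans (mul_le_mul_of_nonneg_left e3 (by positivity)))
    c3.le
  refine le_of_mul_le_mul_right ?_ K0
  linarith

theorem sCol (h1 : SPma) (h2 : SWt) : SCol 3 :=
  step_Col h1 h2 2 one_le_two (step_Col h1 h2 1 le_rfl one_Col)

end Pool.Agent.MP_c4b7b1_co.DS

end

section
namespace Pool.Agent.MP_c4b7b1_co.DS

open Finset Real

theorem sStep (h1 : SUp4) (h2 : SFm) : SStep := by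
  classical
  intro k hk ih
  obtain ⟨C2, hC2, u⟩ := h1 k hk
  obtain ⟨C1, hC1, N1, f⟩ := h2 k (by omega) ih
  refine ⟨C1 ^ 2 * C2, by positivity, max N1 1, fun V _ _ d hd hN => ?_⟩
  have f1 := f V d hd (le_of_max_le_left hN)
  have f4 := u V d hd.1 (le_of_max_le_right hN)
  have f2 := cauchy (prs k d) (es (k + 1) d) (fun x => x.1 ⊔ x.2)
    (fun x hx => by
      obtain ⟨a1, a2, a3, a4⟩ := mem_prs.1 hx
      exact mem_es.2 ⟨fun v => by rw [deg_sup a3, a4], x.1, x.2, a1, a2, rfl⟩)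
    (fun x => wp k d x.2)
  have hc : ∀ j t, 0 ≤ e4 k j t := fun j t => mul_nonneg (wv_nonneg _ _ _) (wv_nonneg _ _ _)
  have f3 : ∑ p ∈ (prs k d ×ˢ prs k d).filter (fun p => p.1.1 ⊔ p.1.2 = p.2.1 ⊔ p.2.2),
      wp k d p.1.2 * wp k d p.2.2 ≤ cnt2 d (U4 k) (e4 k) := by
    have hdeg : ∀ p ∈ (prs k d ×ˢ prs k d).filter (fun p => p.1.1 ⊔ p.1.2 = p.2.1 ⊔ p.2.2), ∀ v,
        deg p.1.2 v = deg (p.1.2 ⊓ p.2.1) v + deg (p.1.2 ⊓ p.2.2) v ∧
        deg p.2.2 v = deg (p.1.1 ⊓ p.2.2) v + deg (p.1.2 ⊓ p.2.2) v ∧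
        deg p.1.1 v = deg (p.1.1 ⊓ p.2.1) v + deg (p.1.1 ⊓ p.2.2) v ∧
        deg p.2.1 v = deg (p.1.1 ⊓ p.2.1) v + deg (p.1.2 ⊓ p.2.1) v := by
      intro p hp v
      rw [mem_filter, mem_product] at hp
      obtain ⟨⟨hx, hy⟩, he⟩ := hp
      have d1 := (mem_prs.1 hx).2.2.1
      have d2 := (mem_prs.1 hy).2.2.1
      refine ⟨deg_split (he ▸ le_sup_right) d2 v, ?_, deg_split (he ▸ le_sup_left) d2 v, ?_⟩
      · rw [inf_comm p.1.1, inf_comm p.1.2]; exact deg_split (he.symm ▸ le_sup_right) d1 v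
      · rw [inf_comm p.1.1, inf_comm p.1.2]; exact deg_split (he.symm ▸ le_sup_left) d1 v
    apply le_cnt2 _ (fun p => ![p.1.1 ⊓ p.2.1, p.1.2 ⊓ p.2.1, p.1.1 ⊓ p.2.2, p.1.2 ⊓ p.2.2])
      _ _ _ _ hc
    · intro p hp v
      have hd := hdeg p hp v
      rw [mem_filter, mem_product] at hp
      obtain ⟨⟨hx, hy⟩, -⟩ := hp
      have a1 := (mem_prs.1 hx).1.deg_le v
      have a2 := (mem_prs.1 hy).1.deg_le v
      have a3 := (mem_prs.1 hx).2.1 v
      have a4 := (mem_prs.1 hy).2.1 v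
      have a5 := (mem_prs.1 hx).2.2.2 v
      rw [U4, mem_filter, mem_T4 (by omega), Fin.sum_univ_four]
      simp only [Matrix.cons_val_zero, Matrix.cons_val_one, Matrix.cons_val]
      omega
    · intro p hp
      unfold wp e4
      rw [← prod_mul_distrib]
      apply le_of_eq
      apply prod_congr rfl
      intro v _
      have hd := hdeg p hp v
      simp only [Matrix.cons_val_zero, Matrix.cons_val_one, Matrix.cons_val]
      rw [← hd.1, ← hd.2.1]
    · rintro ⟨⟨G1, M1⟩, ⟨G2, M2⟩⟩ hp ⟨⟨G1', M1'⟩, ⟨G2', M2'⟩⟩ hq h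
      have hp' := (mem_filter.mp hp).2
      have hq' := (mem_filter.mp hq).2
      simp only at hp' hq'
      have e0 : G1 ⊓ G2 = G1' ⊓ G2' := congrFun h 0
      have e1 : M1 ⊓ G2 = M1' ⊓ G2' := congrFun h 1
      have e2 : G1 ⊓ M2 = G1' ⊓ M2' := congrFun h 2
      have e3 : M1 ⊓ M2 = M1' ⊓ M2' := congrFun h 3
      have r1 : ∀ X Y Z : SimpleGraph V, X ≤ Y ⊔ Z → X = X ⊓ Y ⊔ X ⊓ Z := fun X Y Z hX => by
        rw [← inf_sup_left, inf_eq_left.mpr hX]
      have r2 : ∀ X Y Z : SimpleGraph V, X ≤ Y ⊔ Z → X = Y ⊓ X ⊔ Z ⊓ X := fun X Y Z hX => by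
        rw [← inf_sup_right, inf_eq_right.mpr hX]
      have g1 : G1 = G1' := by
        rw [r1 G1 G2 M2 (hp' ▸ le_sup_left), r1 G1' G2' M2' (hq' ▸ le_sup_left), e0, e2]
      have g2 : M1 = M1' := by
        rw [r1 M1 G2 M2 (hp' ▸ le_sup_right), r1 M1' G2' M2' (hq' ▸ le_sup_right), e1, e3]
      have g3 : G2 = G2' := by
        rw [r2 G2 G1 M1 (hp'.symm ▸ le_sup_left), r2 G2' G1' M1' (hq'.symm ▸ le_sup_left), e0, e1]
      have g4 : M2 = M2' := by
        rw [r2 M2 G1 M1 (hp'.symm ▸ le_sup_right), r2 M2' G1' M1' (hq'.symm ▸ le_sup_right), e2, e3]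
      rw [g1, g2, g3, g4]
  have hk0 : (0 : ℝ) < k := by exact_mod_cast (by omega : 0 < k)
  have hR : 0 < √((k : ℝ) / (k + 1)) ^ (∑ v, d v) * ((k : ℝ) + 1) ^ Fintype.card V := by
    positivity
  have hQ := Q_pos d
  generalize √((k : ℝ) / (k + 1)) ^ (∑ v, d v) * ((k : ℝ) + 1) ^ Fintype.card V = R at *
  have g2 : Q d * R ^ 2 * Q d ≤ Q d * R ^ 2 * (C1 ^ 2 * C2 * (es (k + 1) d).card) := by
    calc Q d * R ^ 2 * Q d = (Q d * R) ^ 2 := by ring
      _ ≤ (C1 * ∑ x ∈ prs k d, wp k d x.2) ^ 2 := by gcongr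
      _ = C1 ^ 2 * (∑ x ∈ prs k d, wp k d x.2) ^ 2 := by ring
      _ ≤ C1 ^ 2 * ((es (k + 1) d).card * (C2 * (Q d * R ^ 2))) := by
          apply mul_le_mul_of_nonneg_left _ (by positivity)
          exact f2.trans (mul_le_mul_of_nonneg_left (f3.trans f4) (by positivity))
      _ = _ := by ring
  exact le_of_mul_le_mul_left g2 (by positivity)

end Pool.Agent.MP_c4b7b1_co.DS

end

section
/-! The base case: three colours. -/


namespace Pool.Agent.MP_c4b7b1_co.DS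

open Finset Real

section

variable {V : Type} [Fintype V] [DecidableEq V]

omit [Fintype V] [DecidableEq V] in
lemma le_Base (F : Fin 3 → SimpleGraph V) (i : Fin 3) : F i ≤ F 0 ⊔ F 1 ⊔ F 2 := by
  fin_cases i
  exacts [le_sup_left.trans le_sup_left, le_sup_right.trans le_sup_left, le_sup_right]

lemma dis_Base {d : V → ℕ} {F : Fin 3 → SimpleGraph V} (h : F ∈ col 3 d) :
    Disjoint (F 0) (F 1) ∧ Disjoint (F 0 ⊔ F 1) (F 2) :=
  have h1 := (mem_col.1 h).2.1
  ⟨h1 0 1 (by decide), disjoint_sup_left.2 ⟨h1 0 2 (by decide), h1 1 2 (by decide)⟩⟩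

lemma es_Base {d : V → ℕ} {F : Fin 3 → SimpleGraph V} (h : F ∈ col 3 d) :
    F 0 ⊔ F 1 ⊔ F 2 ∈ es 3 d := by
  obtain ⟨h1, -, h3⟩ := mem_col.1 h
  refine mem_es.2 ⟨fun v => ?_, _, F 2, ⟨_, F 1, ⟨⊥, F 0, rfl, h1 0, (bot_sup_eq _).symm⟩,
    h1 1, rfl⟩, h1 2, rfl⟩
  rw [deg_sup (dis_Base h).2, deg_sup (dis_Base h).1, ← h3 v, Fin.sum_univ_three]

open Classical in
lemma pair_Base (d : V → ℕ) : ∑ _p ∈ (col 3 d ×ˢ col 3 d).filter
    (fun p => p.1 0 ⊔ p.1 1 ⊔ p.1 2 = p.2 0 ⊔ p.2 1 ⊔ p.2 2), (1 : ℝ) * 1 ≤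
      cnt2 d U9 (fun _ _ => 1) := by
  refine le_cnt2 _ (fun p => ![p.1 0 ⊓ p.2 0, p.1 0 ⊓ p.2 1, p.1 0 ⊓ p.2 2,
    p.1 1 ⊓ p.2 0, p.1 1 ⊓ p.2 1, p.1 1 ⊓ p.2 2, p.1 2 ⊓ p.2 0, p.1 2 ⊓ p.2 1, p.1 2 ⊓ p.2 2])
    ?_ d U9 _ (fun _ _ => zero_le_one) _ (fun p hp v => ?_) fun _ _ => by simp
  · rintro ⟨F, G⟩ hp ⟨F', G'⟩ hq h
    have hp' : F 0 ⊔ F 1 ⊔ F 2 = G 0 ⊔ G 1 ⊔ G 2 := (mem_filter.mp hp).2
    have hq' : F' 0 ⊔ F' 1 ⊔ F' 2 = G' 0 ⊔ G' 1 ⊔ G' 2 := (mem_filter.mp hq).2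
    have e : ∀ i j, F i ⊓ G j = F' i ⊓ G' j := fun i j => by
      fin_cases i <;> fin_cases j
      exacts [congrFun h 0, congrFun h 1, congrFun h 2, congrFun h 3, congrFun h 4, congrFun h 5,
        congrFun h 6, congrFun h 7, congrFun h 8]
    have r1 : ∀ X Y Z W : SimpleGraph V, X ≤ Y ⊔ Z ⊔ W →
        X = X ⊓ Y ⊔ X ⊓ Z ⊔ X ⊓ W := fun X Y Z W hX => by
      rw [← inf_sup_left, ← inf_sup_left, inf_eq_left.mpr hX]
    have r2 : ∀ X Y Z W : SimpleGraph V, X ≤ Y ⊔ Z ⊔ W →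
        X = Y ⊓ X ⊔ Z ⊓ X ⊔ W ⊓ X := fun X Y Z W hX => by
      rw [← inf_sup_right, ← inf_sup_right, inf_eq_right.mpr hX]
    refine Prod.ext (funext fun i => ?_) (funext fun j => ?_)
    · exact (r1 _ _ _ _ ((le_Base F i).trans hp'.le)).trans (by
        rw [e, e, e, ← r1 _ _ _ _ ((le_Base F' i).trans hq'.le)])
    · exact (r2 _ _ _ _ ((le_Base G j).trans hp'.ge)).trans (by
        rw [e, e, e, ← r2 _ _ _ _ ((le_Base G' j).trans hq'.ge)])
  · obtain ⟨F, G⟩ := p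
    obtain ⟨h1, he⟩ := mem_filter.1 hp
    obtain ⟨hF, hG⟩ : F ∈ col 3 d ∧ G ∈ col 3 d := mem_product.1 h1
    have he' : F 0 ⊔ F 1 ⊔ F 2 = G 0 ⊔ G 1 ⊔ G 2 := he
    have a1 := fun i => deg_split3 ((le_Base F i).trans he'.le) (dis_Base hG).1 (dis_Base hG).2 v
    have a2 : ∀ j, deg (G j) v =
        deg (F 0 ⊓ G j) v + (deg (F 1 ⊓ G j) v + deg (F 2 ⊓ G j) v) := fun j => by
      rw [inf_comm (F 0), inf_comm (F 1), inf_comm (F 2)]
      exact deg_split3 ((le_Base G j).trans he'.ge) (dis_Base hF).1 (dis_Base hF).2 v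
    have a3 := (mem_col.1 hF).2.2 v
    have a4 := fun i => (mem_col.1 hF).1 i v
    have a5 := fun i => (mem_col.1 hG).1 i v
    rw [Fin.sum_univ_three, a1 0, a1 1, a1 2] at a3
    rw [U9, mem_filter, mem_T9, sum9]
    simp only [Matrix.cons_val_zero, Matrix.cons_val_one, Matrix.cons_val]
    rw [← a1 0, ← a1 1, ← a1 2, ← a2 0, ← a2 1, ← a2 2]
    exact ⟨⟨⟨a4 0, a4 1, a4 2⟩, a5 0, a5 1, a5 2⟩, by omega⟩

omit [DecidableEq V] in
lemma alg_Base (d : V → ℕ) :
    (lap (∑ v, d v) * (√(1 / ((3 : ℕ) : ℝ)) ^ (∑ v, d v) * ∏ v, (Nat.choose 3 (d v) : ℝ))) ^ 2 =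
      (lap (∑ v, d v) * ∏ v, ((Nat.choose 3 (d v) : ℝ) ^ 2 * (d v).factorial / 3 ^ d v)) *
        Q d := by
  have h : (∏ v, ((d v).factorial : ℝ)) ≠ 0 := by positivity
  rw [Q, prod_div_distrib, prod_mul_distrib, prod_pow_eq_pow_sum, prod_pow, mul_pow, mul_pow,
    ← pow_mul, mul_comm (∑ v, d v) 2, pow_mul, sq_sqrt (by positivity), one_div, inv_pow]
  push_cast
  field_simp

end

theorem sBase (h1 : SCol 3) (h2 : SUp9) : Claim 3 := by
  classical
  obtain ⟨C1, hC1, N1, h1⟩ := h1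
  obtain ⟨C2, hC2, h2⟩ := h2
  refine ⟨C1 ^ 2 * C2, by positivity, max N1 1, fun V _ _ d hd hN => ?_⟩
  have f1 := h1 V d hd (le_of_max_le_left hN)
  have f2 := cauchy (col 3 d) (es 3 d) (fun F => F 0 ⊔ F 1 ⊔ F 2) (fun F hF => es_Base hF)
    (fun _ => (1 : ℝ))
  have f3 := (pair_Base d).trans (h2 V d hd.1 (le_of_max_le_right hN))
  have p0 := lap_pos (∑ v, d v)
  have p1 : 0 < lap (∑ v, d v) *
      ∏ v, ((Nat.choose 3 (d v) : ℝ) ^ 2 * (d v).factorial / 3 ^ d v) :=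
    mul_pos p0 (prod_pos fun v _ => by
      have := Nat.choose_pos (hd.1 v)
      positivity)
  rw [sum_const, nsmul_eq_mul, mul_one] at f2
  refine le_of_mul_le_mul_left ?_ p1
  rw [← alg_Base]
  refine (pow_le_pow_left₀ (by positivity) f1 2).trans ?_
  rw [mul_pow]
  refine (mul_le_mul_of_nonneg_left (f2.trans
    (mul_le_mul_of_nonneg_left f3 (Nat.cast_nonneg _))) (sq_nonneg C1)).trans_eq ?_
  ring

end Pool.Agent.MP_c4b7b1_co.DS

end

section
namespace Pool.Agent.MP_c4b7b1_co.DS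

open Finset Real

theorem sObs : SObs := by
  classical
  intro V _ _ k G X ⟨C⟩ hX
  let M : Fin k → SimpleGraph V := fun i =>
    { Adj := fun v w => ∃ h : s(v, w) ∈ G.edgeSet, C ⟨s(v, w), h⟩ = i
      symm := ⟨fun v w h => by rwa [Sym2.eq_swap]⟩
      loopless := ⟨fun v h => G.irrefl h.1⟩ }
  have m1 : ∀ i v, deg (M i) v ≤ 1 := by
    intro i v
    rw [deg_le_one]
    rintro x y ⟨hx, cx⟩ ⟨hy, cy⟩
    by_contra hne
    refine C.valid (v := ⟨_, hx⟩) (w := ⟨_, hy⟩) ?_ (cx.trans cy.symm)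
    rw [SimpleGraph.lineGraph_adj_iff_exists]
    refine ⟨fun h => hne ?_, v, by simp, by simp⟩
    exact Sym2.congr_right.1 (congrArg Subtype.val h)
  have m2 : ∀ v, ∑ i, deg (M i) v = deg G v := by
    intro v
    unfold deg
    rw [← card_biUnion]
    · congr 1
      ext w
      simp only [mem_biUnion, mem_univ, true_and, mem_nb]
      exact ⟨fun ⟨_, h, _⟩ => h, fun h => ⟨_, h, rfl⟩⟩
    · intro i _ j _ hij
      refine disjoint_left.2 fun w a b => hij ?_
      obtain ⟨_, a⟩ := mem_nb.1 a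
      obtain ⟨_, b⟩ := mem_nb.1 b
      exact a.symm.trans b
  have m3 : ∀ i, 1 ≤ ∑ v, if v ∈ X then 1 - deg (M i) v else deg (M i) v := by
    intro i
    by_contra h
    have h0 : (∑ v, if v ∈ X then 1 - deg (M i) v else deg (M i) v) = 0 := by omega
    rw [sum_eq_zero_iff] at h0
    have e1 : ∑ v, deg (M i) v = X.card := by
      rw [card_eq_sum_ones, ← sum_ite_mem_eq X (fun _ => 1)]
      refine sum_congr rfl fun v _ => ?_
      have a := h0 v (mem_univ v)
      have b := m1 i v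
      split_ifs at a ⊢ <;> omega
    have e2 : ∑ v, deg (M i) v = 2 * (M i).edgeFinset.card := by
      rw [← SimpleGraph.sum_degrees_eq_twice_card_edges]
      refine sum_congr rfl fun v _ => ?_
      rw [← ncard_nb, ← SimpleGraph.card_neighborFinset_eq_degree, ← Set.ncard_coe_finset,
        SimpleGraph.coe_neighborFinset]
    rw [Nat.odd_iff] at hX
    omega
  calc k = ∑ _i : Fin k, 1 := by simp
    _ ≤ ∑ i, ∑ v, if v ∈ X then 1 - deg (M i) v else deg (M i) v := sum_le_sum fun i _ => m3 i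
    _ = _ := by
      rw [sum_comm]
      refine sum_congr rfl fun v _ => ?_
      split_ifs
      · have : ∑ i, (1 - deg (M i) v) + ∑ i, deg (M i) v = k := by
          rw [← sum_add_distrib, sum_congr rfl fun i _ => Nat.sub_add_cancel (m1 i v)]
          simp
        rw [← m2 v]
        omega
      · exact m2 v

end Pool.Agent.MP_c4b7b1_co.DS

end

section
namespace Pool.Agent.MP_c4b7b1_co.DS

open Finset Real

section

variable {V : Type} [Fintype V] [DecidableEq V]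

/-- the vertices that are neither isolated nor full -/
def mix_Edge (D : ℕ) (d : V → ℕ) : Finset V := univ.filter fun v => 1 ≤ d v ∧ d v < D

omit [DecidableEq V] in
lemma mem_mix_Edge {D : ℕ} {d : V → ℕ} {v : V} : v ∈ mix_Edge D d ↔ 1 ≤ d v ∧ d v < D := by
  simp only [mix_Edge, mem_filter, mem_univ, true_and]

lemma crit_Edge {D m : ℕ} {d : V → ℕ} (hd : d ∈ seqs V D (2 * m))
    (h : D ≤ (mix_Edge D d).card) : Crit D d := by
  obtain ⟨h1, h2⟩ := mem_seqs.1 hd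
  refine ⟨h1, h2 ▸ even_two_mul m, fun X _ => h.trans ?_⟩
  rw [card_eq_sum_ones]
  refine le_trans (sum_le_sum fun v hv => ?_) (sum_le_sum_of_subset (subset_univ (mix_Edge D d)))
  have := mem_mix_Edge.1 hv
  split_ifs <;> omega

lemma ne_Edge (D M : ℕ) (h : M ≤ D * Fintype.card V) : (seqs V D M).Nonempty := by
  induction M with
  | zero => exact ⟨fun _ => 0, mem_seqs.2 ⟨fun _ => Nat.zero_le _, by simp⟩⟩
  | succ M ih =>
    obtain ⟨d, hd⟩ := ih (by omega)
    obtain ⟨h1, h2⟩ := mem_seqs.1 hd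
    obtain ⟨v, -, hv⟩ : ∃ v ∈ univ, d v < (fun _ : V => D) v := by
      refine exists_lt_of_sum_lt ?_
      rw [h2, sum_const, card_univ, smul_eq_mul, mul_comm]
      omega
    refine ⟨fun u => d u + if u = v then 1 else 0, mem_seqs.2 ⟨fun u => ?_, ?_⟩⟩
    · have := h1 u
      split_ifs with e
      · rw [e]; exact hv
      · omega
    · rw [sum_add_distrib, h2, sum_ite_eq', if_pos (mem_univ v)]

/-- small total deficiency -/
lemma small_Edge {D m δ : ℕ} {d : V → ℕ} (hD : 2 ≤ D) (hd : d ∈ seqs V D (2 * m))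
    (hm : m ≤ D * (Fintype.card V / 2)) (hδ : δ + 2 * m = D * Fintype.card V)
    (hn : δ ≤ Fintype.card V) : ∃ e ∈ seqs V D (2 * m), Crit D e ∧ (mix_Edge D e).card ≤ δ ∧
      ∀ v, v ∉ mix_Edge D e → d v = e v := by
  obtain ⟨h1, h2⟩ := mem_seqs.1 hd
  have h3 : (univ.filter fun v => d v < D).card + 2 * m ≤ D * Fintype.card V := by
    rw [card_filter, ← h2, ← sum_add_distrib, mul_comm, ← smul_eq_mul, ← card_univ, ← sum_const]
    refine sum_le_sum fun v _ => ?_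
    have := h1 v
    split_ifs <;> omega
  obtain ⟨W, hW, -, hc⟩ := exists_subsuperset_card_eq (subset_univ (univ.filter fun v => d v < D))
    (n := δ) (by omega) (by rwa [card_univ])
  have hmix : mix_Edge D (low (fun _ => D) W) = W := by
    ext v
    rw [mem_mix_Edge, low]
    split_ifs with hv <;> simp only [hv, iff_true, iff_false] <;> omega
  have hs := sum_low_add (fun _ : V => D) W fun _ _ => by omega
  rw [sum_const, card_univ, smul_eq_mul, mul_comm, hc] at hs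
  have he : low (fun _ => D) W ∈ seqs V D (2 * m) := by
    refine mem_seqs.2 ⟨fun v => ?_, by omega⟩
    rw [low]
    split_ifs <;> omega
  refine ⟨_, he, ?_, by rw [hmix, hc], fun v hv => ?_⟩
  · rcases le_or_gt D δ with h | h
    · exact crit_Edge he (by rwa [hmix, hc])
    refine ⟨(mem_seqs.1 he).1, (mem_seqs.1 he).2 ▸ even_two_mul m, fun X hX => ?_⟩
    obtain ⟨k, hk⟩ : Even (Fintype.card V) := by
      by_contra hodd
      obtain ⟨k, hk⟩ := Nat.not_even_iff_odd.1 hodd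
      rw [hk, show (2 * k + 1) / 2 = k by omega] at hm
      rw [hk] at hδ
      nlinarith
    obtain ⟨w, hw⟩ : ∃ w, w ∉ X := by
      by_contra hall
      rw [eq_univ_iff_forall.2 fun x => not_not.1 fun hx => hall ⟨x, hx⟩, card_univ, hk] at hX
      obtain ⟨j, hj⟩ := hX
      omega
    by_cases hwW : w ∈ W
    · have h4 : 0 < W.card := card_pos.2 ⟨w, hwW⟩
      rw [hk, mul_add] at hδ
      obtain ⟨u, hu, huw⟩ := exists_mem_ne (s := W) (by omega) w
      refine le_trans ?_ (add_le_sum (fun _ _ => Nat.zero_le _) (mem_univ u) (mem_univ w) huw)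
      simp only [low, if_pos hu, if_pos hwW, if_neg hw]
      split_ifs <;> omega
    · refine le_trans ?_ (single_le_sum (fun _ _ => Nat.zero_le _) (mem_univ w))
      simp only [low, if_neg hwW, if_neg hw, le_refl]
  · rw [hmix] at hv
    have h4 : ¬ d v < D := fun h => hv (hW (mem_filter.2 ⟨mem_univ v, h⟩))
    have := h1 v
    rw [low, if_neg hv]
    omega

lemma cnt_Edge {D : ℕ} (f : V → ℕ) (A B : Finset V) (h : ∀ v, f v ≤ D)
    (h0 : ∀ v, v ∉ A → v ∉ B → f v = 0) (hB : B.card < D) (hs : 2 * D ^ 2 ≤ ∑ v, f v) :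
    D ≤ A.card := by
  have h1 : ∑ v, f v = ∑ v ∈ A ∪ B, f v :=
    (sum_subset (subset_univ _) fun v _ hv =>
      h0 v (fun e => hv (mem_union_left _ e)) fun e => hv (mem_union_right _ e)).symm
  have h2 := sum_le_card_nsmul (A ∪ B) f D fun v _ => h v
  have h3 := card_union_le A B
  rw [smul_eq_mul] at h2
  by_contra h4
  have h5 : (A ∪ B).card * D ≤ (2 * D - 2) * D := Nat.mul_le_mul_right _ (by omega)
  obtain ⟨E, rfl⟩ : ∃ E, D = E + 1 := ⟨D - 1, by omega⟩
  rw [show 2 * (E + 1) - 2 = 2 * E by omega] at h5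
  nlinarith

/-- large total deficiency -/
lemma large_Edge {D m : ℕ} {d : V → ℕ} (hD : 2 ≤ D) (hd : d ∈ seqs V D (2 * m))
    (hm : D ^ 2 ≤ m) (hδ : 2 * D ^ 2 + 2 * m ≤ D * Fintype.card V)
    (hx : (mix_Edge D d).card < D) : ∃ e ∈ seqs V D (2 * m), Crit D e ∧
      (mix_Edge D e).card ≤ 3 * D ∧ ∀ v, v ∉ mix_Edge D e → d v = e v := by
  obtain ⟨h1, h2⟩ := mem_seqs.1 hd
  have h3 : ∑ v, (D - d v) + 2 * m = D * Fintype.card V := by
    rw [← h2, ← sum_add_distrib, mul_comm, ← smul_eq_mul, ← card_univ, ← sum_const]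
    exact sum_congr rfl fun v _ => Nat.sub_add_cancel (h1 v)
  obtain ⟨Z, hZ, cZ⟩ := exists_subset_card_eq (cnt_Edge (fun v => D - d v)
    (univ.filter fun v => d v = 0) _ (fun v => Nat.sub_le _ _) (fun v a b => by
      rw [mem_mix_Edge] at b
      simp only [mem_filter, mem_univ, true_and] at a
      omega) hx (by omega))
  obtain ⟨F, hF, cF⟩ := exists_subset_card_eq (cnt_Edge d
    (univ.filter fun v => d v = D) _ h1 (fun v a b => by
      rw [mem_mix_Edge] at b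
      simp only [mem_filter, mem_univ, true_and] at a
      have := h1 v
      omega) hx (by omega))
  have z : ∀ v ∈ Z, d v = 0 := fun v hv => (mem_filter.1 (hZ hv)).2
  have f : ∀ v ∈ F, d v = D := fun v hv => (mem_filter.1 (hF hv)).2
  have hs := sum_low_add d F fun v hv => by have := f v hv; omega
  have he : (fun v => low d F v + ind Z v) ∈ seqs V D (2 * m) := by
    refine mem_seqs.2 ⟨fun v => ?_, ?_⟩
    · have := h1 v
      simp only [low, ind]
      split_ifs with a b b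
      · have := z v b; omega
      · omega
      · have := z v b; omega
      · omega
    · rw [sum_add_distrib, show ∑ v, ind Z v = Z.card by simp [ind]]
      omega
  have hk : ∀ v, v ∈ mix_Edge D (fun v => low d F v + ind Z v) ↔
      v ∈ mix_Edge D d ∨ v ∈ Z ∨ v ∈ F := by
    intro v
    have := z v
    have := f v
    simp only [mem_mix_Edge, low, ind]
    by_cases a : v ∈ Z <;> by_cases b : v ∈ F <;>
      simp only [a, b, if_true, if_false, forall_true_left, or_true, or_false,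
        iff_true, add_zero] at * <;> omega
  refine ⟨_, he, crit_Edge he (cZ.ge.trans (card_le_card fun v hv => (hk v).2 (by simp [hv]))),
    ?_, fun v hv => ?_⟩
  · have h4 : mix_Edge D (fun v => low d F v + ind Z v) ⊆ mix_Edge D d ∪ (Z ∪ F) := fun v hv => by
      simpa only [mem_union] using (hk v).1 hv
    have h5 := card_le_card h4
    have h6 := card_union_le (mix_Edge D d) (Z ∪ F)
    have h7 := card_union_le Z F
    omega
  · rw [hk, not_or, not_or] at hv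
    simp only [low, ind, if_neg hv.2.1, if_neg hv.2.2, add_zero]

/-- the size of a fibre -/
lemma fibre_Edge {D M L : ℕ} {e : V → ℕ} (he : e ∈ seqs V D M) (W : Finset V) (hW : W.card ≤ L)
    (S : Finset (V → ℕ)) (hS : ∀ d ∈ S, d ∈ seqs V D M ∧ ∀ v, v ∉ W → d v = e v) :
    ∑ d ∈ S, Q d ≤ (((D + 1) ^ L * D.factorial ^ L : ℕ) : ℝ) * Q e := by
  obtain ⟨e1, e2⟩ := mem_seqs.1 he
  have h1 : S.card ≤ (D + 1) ^ L := by
    have h2 : S ⊆ Fintype.piFinset fun v => if v ∈ W then range (D + 1) else {e v} := by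
      intro d hd
      rw [Fintype.mem_piFinset]
      intro v
      split_ifs with hv
      · exact mem_range.2 (Nat.lt_succ_of_le ((mem_seqs.1 (hS d hd).1).1 v))
      · exact mem_singleton.2 ((hS d hd).2 v hv)
    refine (card_le_card h2).trans (le_trans (le_of_eq ?_) (Nat.pow_le_pow_right (by omega) hW))
    rw [Fintype.card_piFinset]
    simp only [apply_ite card, card_range, card_singleton]
    rw [prod_ite_mem_eq, prod_const]
  have h2 : ∀ d ∈ S, Q d ≤ ((D.factorial ^ L : ℕ) : ℝ) * Q e := by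
    intro d hd
    have h3 : ∏ v, (e v).factorial ≤ D.factorial ^ L * ∏ v, (d v).factorial := by
      refine le_trans ?_ (Nat.mul_le_mul_right _ (Nat.pow_le_pow_right D.factorial_pos hW))
      rw [← prod_const, ← prod_ite_mem_eq W, ← prod_mul_distrib]
      refine prod_le_prod' fun v _ => ?_
      split_ifs with hv
      · exact (Nat.factorial_le (e1 v)).trans (Nat.le_mul_of_pos_right _ (Nat.factorial_pos _))
      · rw [(hS d hd).2 v hv, one_mul]
    have h4 : ∏ v, ((e v).factorial : ℝ) ≤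
        ((D.factorial ^ L : ℕ) : ℝ) * ∏ v, ((d v).factorial : ℝ) := by exact_mod_cast h3
    rw [Q, Q, (mem_seqs.1 (hS d hd).1).2, e2, ← mul_div_assoc,
      div_le_div_iff₀ (by positivity) (by positivity)]
    nlinarith [mul_le_mul_of_nonneg_left h4 (lap_pos M).le]
  refine (sum_le_card_nsmul _ _ _ h2).trans ?_
  rw [nsmul_eq_mul, Nat.cast_mul, mul_assoc]
  exact mul_le_mul_of_nonneg_right (by exact_mod_cast h1)
    (mul_nonneg (Nat.cast_nonneg _) (Q_pos e).le)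

end

theorem sEdge : SEdge := by
  intro D hD
  classical
  obtain ⟨L, hL⟩ : ∃ L, L = 2 * D ^ 2 + 3 * D := ⟨_, rfl⟩
  obtain ⟨K, hK⟩ : ∃ K : ℝ, K = (((D + 1) ^ L * D.factorial ^ L : ℕ) : ℝ) := ⟨_, rfl⟩
  have K0 : 0 ≤ K := hK ▸ Nat.cast_nonneg _
  refine ⟨1 + K, by positivity, D ^ 3 + D ^ 2, fun V _ _ m hN hm => ?_⟩
  have h2 : 2 * m ≤ D * Fintype.card V := by
    have := Nat.mul_le_mul_left D (Nat.mul_div_le (Fintype.card V) 2)
    nlinarith
  have hn : 2 * D ^ 2 ≤ Fintype.card V :=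
    Nat.le_of_mul_le_mul_left (c := D) (by nlinarith [Nat.zero_le (D ^ 2)]) (by omega)
  refine ⟨ne_Edge D _ h2, ?_⟩
  have key : ∀ d ∈ (seqs V D (2 * m)).filter fun d => ¬ Crit D d,
      ∃ e ∈ (seqs V D (2 * m)).filter (Crit D),
        (mix_Edge D e).card ≤ L ∧ ∀ v, v ∉ mix_Edge D e → d v = e v := by
    intro d hd
    obtain ⟨hd, hc⟩ := mem_filter.1 hd
    obtain ⟨δ, hδ⟩ := Nat.exists_eq_add_of_le' h2
    rcases le_total δ (2 * D ^ 2) with h | h
    · obtain ⟨e, a, b, c, f⟩ := small_Edge hD hd hm hδ.symm (h.trans hn)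
      exact ⟨e, mem_filter.2 ⟨a, b⟩, by omega, f⟩
    · obtain ⟨e, a, b, c, f⟩ := large_Edge hD hd (by omega) (by omega)
        (not_le.1 fun h' => hc (crit_Edge hd h'))
      exact ⟨e, mem_filter.2 ⟨a, b⟩, by omega, f⟩
  choose! g hg using key
  rw [← sum_filter_add_sum_filter_not _ (Crit D), add_mul, one_mul, add_le_add_iff_left,
    ← sum_fiberwise_of_maps_to fun d hd => (hg d hd).1, mul_sum]
  refine sum_le_sum fun e he => ?_
  rcases (((seqs V D (2 * m)).filter fun d => ¬ Crit D d).filter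
    fun d => g d = e).eq_empty_or_nonempty with h0 | ⟨d₀, h0⟩
  · rw [h0, sum_empty]
    exact mul_nonneg K0 (Q_pos e).le
  · rw [hK]
    refine fibre_Edge (mem_filter.1 he).1 (mix_Edge D e)
      ((mem_filter.1 h0).2 ▸ (hg d₀ (mem_filter.1 h0).1).2.1) _ fun d hd => ?_
    obtain ⟨a, b⟩ := mem_filter.1 hd
    exact ⟨(mem_filter.1 a).1, b ▸ (hg d a).2.2⟩

end Pool.Agent.MP_c4b7b1_co.DS

end

section
namespace Pool.Agent.MP_c4b7b1_co.DS

open Finset Real

section viz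

variable {V : Type} [Fintype V] [DecidableEq V] {C : Type} [DecidableEq C]

/-- a proper colouring of the edges of `H` -/
def Pr_Viz (H : SimpleGraph V) (c : Sym2 V → C) : Prop :=
  ∀ u v w, H.Adj u v → H.Adj u w → c s(u, v) = c s(u, w) → v = w

/-- a colour missing at a vertex -/
def Ms_Viz (H : SimpleGraph V) (c : Sym2 V → C) (u : V) (a : C) : Prop :=
  ∀ v, H.Adj u v → c s(u, v) ≠ a

/-- the graph without one edge -/
def dl_Viz (G : SimpleGraph V) (x y : V) : SimpleGraph V := G.deleteEdges {s(x, y)}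

/-- a fan at `x` -/
def Fan_Viz (G : SimpleGraph V) (x : V) (c : Sym2 V → C) (y : ℕ → V) (k : ℕ) : Prop :=
  (∀ j ≤ k, G.Adj x (y j)) ∧ (∀ i ≤ k, ∀ j ≤ k, y i = y j → i = j) ∧
    ∀ j < k, Ms_Viz (dl_Viz G x (y 0)) c (y j) (c s(x, y (j + 1)))

/-- the edges with one of two colours -/
def kg_Viz (H : SimpleGraph V) (c : Sym2 V → C) (a b : C) : SimpleGraph V where
  Adj u v := H.Adj u v ∧ (c s(u, v) = a ∨ c s(u, v) = b)
  symm := ⟨fun u v h => ⟨h.1.symm, by rw [Sym2.eq_swap]; exact h.2⟩⟩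
  loopless := ⟨fun u h => H.irrefl h.1⟩

omit [Fintype V] [DecidableEq V] in
lemma dl_adj_Viz {G : SimpleGraph V} {x y u v : V} :
    (dl_Viz G x y).Adj u v ↔ G.Adj u v ∧ s(u, v) ≠ s(x, y) := by
  simp only [dl_Viz, SimpleGraph.deleteEdges_adj, Set.mem_singleton_iff, ne_eq]

omit [Fintype V] [DecidableEq C] in
lemma put_Viz {G : SimpleGraph V} {x y : V} {c : Sym2 V → C} {a : C}
    (hc : Pr_Viz (dl_Viz G x y) c) (hx : Ms_Viz (dl_Viz G x y) c x a)
    (hy : Ms_Viz (dl_Viz G x y) c y a) : Pr_Viz G (Function.update c s(x, y) a) := by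
  have key : ∀ u v w, s(u, v) = s(x, y) → G.Adj u w → s(u, w) ≠ s(x, y) → c s(u, w) ≠ a := by
    intro u v w h1 h2 h3
    rcases Sym2.eq_iff.mp h1 with ⟨rfl, -⟩ | ⟨rfl, -⟩
    · exact hx w (dl_adj_Viz.mpr ⟨h2, h3⟩)
    · exact hy w (dl_adj_Viz.mpr ⟨h2, h3⟩)
  intro u v w hv hw h
  by_cases h1 : s(u, v) = s(x, y) <;> by_cases h2 : s(u, w) = s(x, y)
  · exact Sym2.congr_right.mp (h1.trans h2.symm)
  · rw [h1, Function.update_self, Function.update_of_ne h2] at h
    exact absurd h.symm (key u v w h1 hw h2)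
  · rw [h2, Function.update_self, Function.update_of_ne h1] at h
    exact absurd h (key u w v h2 hv h1)
  · rw [Function.update_of_ne h1, Function.update_of_ne h2] at h
    exact hc u v w (dl_adj_Viz.mpr ⟨hv, h1⟩) (dl_adj_Viz.mpr ⟨hw, h2⟩) h

omit [Fintype V] [DecidableEq C] in
lemma keep_Viz {G : SimpleGraph V} {x y z u : V} {c : Sym2 V → C} {a d : C} (hx : u ≠ x)
    (hy : u ≠ y) (h : Ms_Viz (dl_Viz G x y) c u a) :
    Ms_Viz (dl_Viz G x z) (Function.update c s(x, y) d) u a := by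
  intro v hv
  have h1 : s(u, v) ≠ s(x, y) := by
    intro h1
    rcases Sym2.eq_iff.mp h1 with ⟨h2, -⟩ | ⟨h2, -⟩
    · exact hx h2
    · exact hy h2
  rw [Function.update_of_ne h1]
  exact h v (dl_adj_Viz.mpr ⟨(dl_adj_Viz.mp hv).1, h1⟩)

omit [Fintype V] [DecidableEq V] [DecidableEq C] in
lemma fan_adj_Viz {G : SimpleGraph V} {x : V} {c : Sym2 V → C} {y : ℕ → V} {k j : ℕ}
    (h : Fan_Viz G x c y k) (hj : j < k) : (dl_Viz G x (y 0)).Adj x (y (j + 1)) := by
  refine dl_adj_Viz.mpr ⟨h.1 _ hj, fun h1 => ?_⟩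
  have := h.2.1 (j + 1) hj 0 (Nat.zero_le _) (Sym2.congr_right.mp h1)
  omega

omit [Fintype V] [DecidableEq C] in
lemma fan_Viz (G : SimpleGraph V) (x : V) (a : C) (k : ℕ) : ∀ (y : ℕ → V) (c : Sym2 V → C),
    Pr_Viz (dl_Viz G x (y 0)) c → Fan_Viz G x c y k → Ms_Viz (dl_Viz G x (y 0)) c x a →
    Ms_Viz (dl_Viz G x (y 0)) c (y k) a → ∃ c' : Sym2 V → C, Pr_Viz G c' := by
  induction k with
  | zero => exact fun y c hc _ hx hy => ⟨_, put_Viz hc hx hy⟩
  | succ k ih =>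
    intro y c hc hf hx hy
    have h1 : (dl_Viz G x (y 0)).Adj x (y (0 + 1)) := fan_adj_Viz hf (Nat.succ_pos k)
    have sub : ∀ u v, (dl_Viz (dl_Viz G x (y 1)) x (y 0)).Adj u v → (dl_Viz G x (y 0)).Adj u v :=
      fun u v h => dl_adj_Viz.mpr ⟨(dl_adj_Viz.mp (dl_adj_Viz.mp h).1).1, (dl_adj_Viz.mp h).2⟩
    have ne0 : ∀ j ≤ k, y (j + 1) ≠ y 0 := fun j hj h => by
      have := hf.2.1 (j + 1) (by omega) 0 (Nat.zero_le _) h
      omega
    have nex : ∀ j ≤ k, y (j + 1) ≠ x := fun j hj => (hf.1 (j + 1) (by omega)).ne'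
    refine ih (fun j => y (j + 1)) (Function.update c s(x, y 0) (c s(x, y 1))) ?_ ?_ ?_ ?_
    · refine put_Viz (fun u v w hv hw => hc u v w (sub _ _ hv) (sub _ _ hw)) ?_ ?_
      · intro v hv h
        have := hc x v (y 1) (sub _ _ hv) h1 h
        exact (dl_adj_Viz.mp (dl_adj_Viz.mp hv).1).2 (by rw [this])
      · exact fun v hv => hf.2.2 0 (Nat.succ_pos k) v (sub _ _ hv)
    · refine ⟨fun j hj => hf.1 (j + 1) (by omega), fun i hi j hj h => ?_, fun j hj => ?_⟩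
      · have := hf.2.1 (i + 1) (by omega) (j + 1) (by omega) h
        omega
      · rw [Function.update_of_ne (fun h => ne0 (j + 1) hj (Sym2.congr_right.mp h))]
        exact keep_Viz (nex j hj.le) (ne0 j hj.le) (hf.2.2 (j + 1) (by omega))
    · intro v hv
      by_cases h : s(x, v) = s(x, y 0)
      · rw [h, Function.update_self]
        exact hx _ h1
      · rw [Function.update_of_ne h]
        exact hx v (dl_adj_Viz.mpr ⟨(dl_adj_Viz.mp hv).1, h⟩)
    · exact keep_Viz (nex k le_rfl) (ne0 k le_rfl) hy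

omit [Fintype V] [DecidableEq V] in
lemma kempe_Viz (H : SimpleGraph V) (c : Sym2 V → C) (a b : C) (z : V) :
    ∃ c' : Sym2 V → C, ∀ u v, H.Adj u v →
      ((kg_Viz H c a b).Reachable z u → c' s(u, v) = Equiv.swap a b (c s(u, v))) ∧
      (¬ (kg_Viz H c a b).Reachable z u → c' s(u, v) = c s(u, v)) := by
  classical
  refine ⟨fun e => if ∃ u ∈ e, (kg_Viz H c a b).Reachable z u then Equiv.swap a b (c e) else c e,
    fun u v huv => ⟨fun h => if_pos ⟨u, Sym2.mem_mk_left u v, h⟩, fun h => ?_⟩⟩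
  by_cases h1 : ∃ t ∈ s(u, v), (kg_Viz H c a b).Reachable z t
  · refine (if_pos h1).trans ?_
    obtain ⟨t, ht, hz⟩ := h1
    rcases Sym2.mem_iff.mp ht with rfl | rfl
    · exact absurd hz h
    · have h2 : ¬ (c s(u, t) = a ∨ c s(u, t) = b) := fun h2 =>
        h (hz.trans (SimpleGraph.Adj.reachable (G := kg_Viz H c a b) ⟨huv, h2⟩).symm)
      exact Equiv.swap_apply_of_ne_of_ne (fun h3 => h2 (Or.inl h3)) (fun h3 => h2 (Or.inr h3))
  · exact if_neg h1

omit [Fintype V] in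
lemma swap_Viz {G : SimpleGraph V} {x : V} {a b : C} {k : ℕ} {y : ℕ → V} {c : Sym2 V → C}
    (hc : Pr_Viz (dl_Viz G x (y 0)) c) (hf : Fan_Viz G x c y k)
    (hx : Ms_Viz (dl_Viz G x (y 0)) c x a) (hy : Ms_Viz (dl_Viz G x (y 0)) c (y k) b)
    (hr : ¬ (kg_Viz (dl_Viz G x (y 0)) c a b).Reachable (y k) x)
    (hb : ∀ j < k, c s(x, y (j + 1)) = b →
      ¬ (kg_Viz (dl_Viz G x (y 0)) c a b).Reachable (y k) (y j)) :
    ∃ c' : Sym2 V → C, Pr_Viz G c' := by
  obtain ⟨c', h⟩ := kempe_Viz (dl_Viz G x (y 0)) c a b (y k)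
  refine fan_Viz G x a k y c' ?_ ⟨hf.1, hf.2.1, fun j hj => ?_⟩ ?_ ?_
  · intro u v w hv hw h1
    by_cases hu : (kg_Viz (dl_Viz G x (y 0)) c a b).Reachable (y k) u
    · rw [(h u v hv).1 hu, (h u w hw).1 hu] at h1
      exact hc u v w hv hw ((Equiv.swap a b).injective h1)
    · rw [(h u v hv).2 hu, (h u w hw).2 hu] at h1
      exact hc u v w hv hw h1
  · have h1 := fan_adj_Viz hf hj
    rw [(h x _ h1).2 hr]
    intro v hv
    by_cases hu : (kg_Viz (dl_Viz G x (y 0)) c a b).Reachable (y k) (y j)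
    · rw [(h _ v hv).1 hu, Ne, Equiv.swap_apply_eq_iff,
        Equiv.swap_apply_of_ne_of_ne (hx _ h1) (fun h2 => hb j hj h2 hu)]
      exact hf.2.2 j hj v hv
    · rw [(h _ v hv).2 hu]
      exact hf.2.2 j hj v hv
  · intro v hv
    rw [(h x v hv).2 hr]
    exact hx v hv
  · intro v hv
    rw [(h _ v hv).1 (SimpleGraph.Reachable.refl _), Ne, Equiv.swap_apply_eq_iff,
      Equiv.swap_apply_left]
    exact hy v hv

omit [DecidableEq V] [DecidableEq C] in
lemma deg_kg_Viz {H : SimpleGraph V} {c : Sym2 V → C} (hc : Pr_Viz H c) (a b : C) (u : V)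
    (T : Finset C) (hT : ∀ v, H.Adj u v → c s(u, v) = a ∨ c s(u, v) = b → c s(u, v) ∈ T) :
    deg (kg_Viz H c a b) u ≤ T.card := by
  refine card_le_card_of_injOn (fun v => c s(u, v)) (fun v hv => ?_) (fun v hv w hw h => ?_)
  · have h1 := mem_nb.mp (mem_coe.mp hv)
    exact mem_coe.mpr (hT v h1.1 h1.2)
  · exact hc u v w (mem_nb.mp (mem_coe.mp hv)).1 (mem_nb.mp (mem_coe.mp hw)).1 h

lemma three_Viz (K : SimpleGraph V) (h2 : ∀ v, deg K v ≤ 2) {p q r : V} (hpq : p ≠ q)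
    (hpr : p ≠ r) (hqr : q ≠ r) (hp : deg K p ≤ 1) (hq : deg K q ≤ 1) (hr : deg K r ≤ 1)
    (h1 : K.Reachable q p) (h3 : K.Reachable r p) : False := by
  classical
  set Z := K.connectedComponentMk p with hZ
  have mp : p ∈ Z := rfl
  have mq : q ∈ Z := SimpleGraph.ConnectedComponent.sound h1
  have mr : r ∈ Z := SimpleGraph.ConnectedComponent.sound h3
  have e1 := Z.connected_toSimpleGraph.card_vert_le_card_edgeSet_add_one
  have e2 := Z.toSimpleGraph.sum_degrees_eq_twice_card_edges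
  rw [Nat.card_eq_fintype_card, Nat.card_eq_fintype_card, ← SimpleGraph.edgeFinset_card] at e1
  have e3 : ∀ v : Z, Z.toSimpleGraph.degree v ≤ deg K v := by
    intro v
    rw [← SimpleGraph.card_neighborFinset_eq_degree]
    refine card_le_card_of_injOn (fun w => w.1) (fun w hw => ?_) (fun w _ w' _ h => Subtype.ext h)
    have h4 : Z.toSimpleGraph.Adj v w := (SimpleGraph.mem_neighborFinset _ _ _).mp (mem_coe.mp hw)
    exact mem_coe.mpr (mem_nb.mpr h4)
  have e4 : ∑ v : Z, (Z.toSimpleGraph.degree v +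
      if v ∈ ({⟨p, mp⟩, ⟨q, mq⟩, ⟨r, mr⟩} : Finset Z) then 1 else 0) ≤ ∑ _v : Z, 2 := by
    refine sum_le_sum fun v _ => ?_
    have := e3 v
    have := h2 v
    split_ifs with hv
    · simp only [mem_insert, mem_singleton] at hv
      rcases hv with rfl | rfl | rfl <;> dsimp only at * <;> omega
    · omega
  rw [sum_add_distrib, sum_ite_mem_eq, e2, sum_const, sum_const, card_univ, smul_eq_mul,
    smul_eq_mul, card_eq_three.mpr ⟨_, _, _, fun h => hpq (congrArg Subtype.val h),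
      fun h => hpr (congrArg Subtype.val h), fun h => hqr (congrArg Subtype.val h), rfl⟩] at e4
  omega

omit [DecidableEq V] in
lemma miss_Viz {D : ℕ} (H : SimpleGraph V) (c : Sym2 V → Fin (D + 1)) (u : V)
    (h : deg H u ≤ D) : ∃ a, Ms_Viz H c u a := by
  have h1 : ((nb H u).image (fun v => c s(u, v))).card < (univ : Finset (Fin (D + 1))).card := by
    rw [card_univ, Fintype.card_fin]
    exact Nat.lt_succ_of_le (card_image_le.trans h)
  obtain ⟨a, -, ha⟩ := exists_mem_notMem_of_card_lt_card h1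
  exact ⟨a, fun v hv h2 => ha (mem_image.mpr ⟨v, mem_nb.mpr hv, h2⟩)⟩

lemma ext_Viz {D : ℕ} {G : SimpleGraph V} (hD : ∀ v, deg G v ≤ D) {x z : V} (hz : G.Adj x z)
    {c : Sym2 V → Fin (D + 1)} (hc : Pr_Viz (dl_Viz G x z) c) :
    ∃ c' : Sym2 V → Fin (D + 1), Pr_Viz G c' := by
  have hmax : ∃ k, (∃ y : ℕ → V, y 0 = z ∧ Fan_Viz G x c y k) ∧
      ¬ ∃ y : ℕ → V, y 0 = z ∧ Fan_Viz G x c y (k + 1) := by
    by_contra hcon
    have all : ∀ k, ∃ y : ℕ → V, y 0 = z ∧ Fan_Viz G x c y k := by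
      intro k
      induction k with
      | zero => exact ⟨fun _ => z, rfl, fun _ _ => hz, fun i hi j hj _ => by omega,
          fun j hj => by omega⟩
      | succ k ih => exact by_contra fun h => hcon ⟨k, ih, h⟩
    obtain ⟨y, -, hy⟩ := all (Fintype.card V)
    have := card_le_card_of_injOn (s := range (Fintype.card V + 1)) (t := univ) y
      (fun _ _ => mem_coe.mpr (mem_univ _)) (fun i hi j hj h => hy.2.1 i
        (Nat.le_of_lt_succ (mem_range.mp (mem_coe.mp hi))) j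
        (Nat.le_of_lt_succ (mem_range.mp (mem_coe.mp hj))) h)
    rw [card_range, card_univ] at this
    omega
  obtain ⟨k, ⟨y, rfl, hf⟩, hk⟩ := hmax
  have hD' : ∀ v, deg (dl_Viz G x (y 0)) v ≤ D :=
    fun v => (deg_mono (fun _ _ h => (dl_adj_Viz.mp h).1) v).trans (hD v)
  obtain ⟨a, ha⟩ := miss_Viz _ c x (hD' x)
  obtain ⟨b, hb⟩ := miss_Viz _ c (y k) (hD' (y k))
  by_cases hxb : Ms_Viz (dl_Viz G x (y 0)) c x b
  · exact fan_Viz G x b k y c hc hf hxb hb
  obtain ⟨t, ht, htb⟩ : ∃ t, (dl_Viz G x (y 0)).Adj x t ∧ c s(x, t) = b :=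
    by_contra fun h => hxb fun v hv h1 => h ⟨v, hv, h1⟩
  obtain ⟨i, hi, rfl⟩ : ∃ i ≤ k, y i = t := by
    by_contra hcon
    have hu : ∀ j ≤ k, Function.update y (k + 1) t j = y j :=
      fun j hj => Function.update_of_ne (by omega) _ _
    refine hk ⟨Function.update y (k + 1) t, hu 0 (Nat.zero_le _), fun j hj => ?_,
      fun i hi j hj h => ?_, fun j hj => ?_⟩
    · rcases Nat.lt_or_ge j (k + 1) with h | h
      · rw [hu j (by omega)]; exact hf.1 j (by omega)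
      · rw [show j = k + 1 by omega, Function.update_self]; exact (dl_adj_Viz.mp ht).1
    · rcases Nat.lt_or_ge i (k + 1) with h1 | h1 <;> rcases Nat.lt_or_ge j (k + 1) with h2 | h2
      · rw [hu i (by omega), hu j (by omega)] at h
        exact hf.2.1 i (by omega) j (by omega) h
      · rw [hu i (by omega), show j = k + 1 by omega, Function.update_self] at h
        exact absurd ⟨i, by omega, h⟩ hcon
      · rw [hu j (by omega), show i = k + 1 by omega, Function.update_self] at h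
        exact absurd ⟨j, by omega, h.symm⟩ hcon
      · omega
    · rw [hu 0 (Nat.zero_le _), hu j (by omega)]
      rcases Nat.lt_or_ge j k with h | h
      · rw [hu (j + 1) h]; exact hf.2.2 j h
      · rw [show j = k by omega, Function.update_self, htb]; exact hb
  obtain ⟨i, rfl⟩ : ∃ i', i = i' + 1 := by
    rcases i with _ | i
    · exact absurd rfl (dl_adj_Viz.mp ht).2
    · exact ⟨i, rfl⟩
  have hbi : Ms_Viz (dl_Viz G x (y 0)) c (y i) b := htb ▸ hf.2.2 i hi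
  have uniq : ∀ j < k, c s(x, y (j + 1)) = b → j = i := fun j hj h => by
    have := hf.2.1 (j + 1) hj (i + 1) hi
      (hc x _ _ (fan_adj_Viz hf hj) ht (h.trans htb.symm))
    omega
  by_cases hr : (kg_Viz (dl_Viz G x (y 0)) c a b).Reachable (y i) x
  · have hr' : ¬ (kg_Viz (dl_Viz G x (y 0)) c a b).Reachable (y k) x := by
      intro h
      have hone : ∀ u, Ms_Viz (dl_Viz G x (y 0)) c u b →
          deg (kg_Viz (dl_Viz G x (y 0)) c a b) u ≤ 1 := fun u hu =>
        deg_kg_Viz hc a b u {a} fun v hv h1 => mem_singleton.mpr (h1.resolve_right (hu v hv))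
      refine three_Viz _ (fun v => (deg_kg_Viz hc a b v {a, b} fun w _ h1 => ?_).trans card_le_two)
        (hf.1 i (by omega)).ne (hf.1 k le_rfl).ne (fun h1 => ?_)
        (deg_kg_Viz hc a b x {b} fun v hv h1 => mem_singleton.mpr (h1.resolve_left (ha v hv)))
        (hone _ hbi) (hone _ hb) hr h
      · simpa only [mem_insert, mem_singleton] using h1
      · have := hf.2.1 i (by omega) k le_rfl h1
        omega
    exact swap_Viz hc hf ha hb hr' fun j hj h h1 => hr' (h1.trans (uniq j hj h ▸ hr))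
  · refine swap_Viz (k := i) hc ⟨fun j hj => hf.1 j (by omega),
      fun j hj l hl => hf.2.1 j (by omega) l (by omega), fun j hj => hf.2.2 j (by omega)⟩
      ha hbi hr fun j hj h => ?_
    have := uniq j (by omega) h
    omega

lemma all_Viz (D : ℕ) (G : SimpleGraph V) : (∀ v, deg G v ≤ D) →
    ∃ c : Sym2 V → Fin (D + 1), Pr_Viz G c := by
  induction G using WellFoundedLT.induction with
  | ind G ih =>
    intro hD
    by_cases h : ∃ x z, G.Adj x z
    · obtain ⟨x, z, hz⟩ := h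
      have hle : dl_Viz G x z ≤ G := fun _ _ h => (dl_adj_Viz.mp h).1
      have hlt : dl_Viz G x z < G :=
        lt_of_le_of_ne hle fun h => (dl_adj_Viz.mp (h.symm ▸ hz : (dl_Viz G x z).Adj x z)).2 rfl
      obtain ⟨c, hc⟩ := ih _ hlt fun v => (deg_mono hle v).trans (hD v)
      exact ext_Viz hD hz hc
    · exact ⟨fun _ => 0, fun u v _ hv => absurd ⟨u, v, hv⟩ h⟩

end viz

theorem sViz : SViz := by
  intro V _ _ D G hD
  obtain ⟨c, hc⟩ := all_Viz D G hD
  refine ⟨SimpleGraph.Coloring.mk (fun e => c e.1) ?_⟩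
  rintro ⟨e, he⟩ ⟨f, hf⟩ hadj heq
  rw [SimpleGraph.lineGraph_adj_iff_exists] at hadj
  obtain ⟨hne, v, hv1, hv2⟩ := hadj
  obtain ⟨x, rfl⟩ := Sym2.mem_iff_exists.mp hv1
  obtain ⟨y, rfl⟩ := Sym2.mem_iff_exists.mp hv2
  have := hc v x y he hf heq
  subst this
  exact hne rfl

end Pool.Agent.MP_c4b7b1_co.DS

end

section
namespace Pool.Agent.MP_c4b7b1_co.DS

open Finset Real

theorem claim_Fin (h1 : SStep) (h2 : Claim 3) (D : ℕ) (hD : 3 ≤ D) : Claim D := by
  induction D, hD using Nat.le_induction with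
  | base => exact h2
  | succ k hk ih => exact h1 k (by omega) ih

section
variable {V : Type} [Fintype V] [DecidableEq V]

lemma cost_eq_Fin (k : ℕ) (d : V → ℕ) (X : Finset V) :
    cost k d X = ∑ v ∈ X, (k - d v) + ∑ v ∈ Xᶜ, d v := by
  unfold cost
  rw [← sum_add_sum_compl X]
  congr 1
  · exact sum_congr rfl fun v hv => if_pos hv
  · exact sum_congr rfl fun v hv => if_neg (mem_compl.1 hv)

lemma gset_le_Fin (d : V → ℕ) : ((gset d).card : ℝ) ≤ 3 * Q d := by
  have ha := card_gset_le _ d rfl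
  have hb : ((gset d).card : ℝ) * ∏ v, ((d v).factorial : ℝ) ≤ pm (∑ v, d v) := by
    exact_mod_cast ha
  have hpos : (0 : ℝ) < ∏ v, ((d v).factorial : ℝ) := by positivity
  unfold Q
  rw [← mul_div_assoc, le_div_iff₀ hpos]
  exact hb.trans (pm_le_lap _)

omit [DecidableEq V] in
lemma sum_deg_Fin (G : SimpleGraph V) : ∑ v, deg G v = 2 * G.edgeSet.ncard := by
  classical
  rw [← SimpleGraph.coe_edgeFinset, Set.ncard_coe_finset,
    ← SimpleGraph.sum_degrees_eq_twice_card_edges]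
  refine sum_congr rfl fun v _ => ?_
  rw [← ncard_nb, ← SimpleGraph.card_neighborFinset_eq_degree, ← Set.ncard_coe_finset,
    SimpleGraph.coe_neighborFinset]

lemma chi_Fin (h3 : SObs) (h5 : SViz) {D : ℕ} {G : SimpleGraph V} (hG : ∀ v, deg G v ≤ D)
    {X : Finset V} (hX : Odd X.card) (hc : cost D (deg G) X < D) :
    G.lineGraph.chromaticNumber = (D : ℕ∞) + 1 := by
  apply le_antisymm
  · exact_mod_cast (h5 V D G hG).chromaticNumber_le
  · rw [ENat.add_one_le_iff (ENat.natCast_ne_top D), ← not_le,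
      SimpleGraph.chromaticNumber_le_iff_colorable]
    intro h
    exact absurd (h3 V D G X h hX) (not_le.2 hc)

omit [DecidableEq V] in
lemma ratio_Fin {A B : Set (SimpleGraph V)} {C : ℝ} (hC : 0 < C) (hAB : A ⊆ B) {q : ℝ}
    (hq : 0 < q) (h1 : (B.ncard : ℝ) ≤ q) (h2 : q ≤ C * A.ncard) :
    1 / C ≤ (A.ncard : ℝ) / B.ncard := by
  have hA : (0 : ℝ) < A.ncard := by
    by_contra h
    have := mul_nonpos_of_nonneg_of_nonpos hC.le (not_lt.1 h)
    linarith
  have hB : (A.ncard : ℝ) ≤ B.ncard := by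
    exact_mod_cast Set.ncard_le_ncard hAB (Set.toFinite _)
  rw [div_le_div_iff₀ hC (hA.trans_le hB)]
  linarith

end

theorem final_Fin (h1 : SStep) (h2 : Claim 3) (h3 : SObs) (h4 : SEdge) (h5 : SViz)
    (D : ℕ) (hD : 3 ≤ D) :
    ∃ c : ℝ, 0 < c ∧ ∃ N : ℕ,
      (∀ (n : ℕ) (d : Fin n → ℕ), (∀ v, d v ≤ D) → Even (∑ v, d v) → N ≤ ∑ v, d v →
        ((∃ X : Finset (Fin n), Odd X.card ∧ ∑ v ∈ X, (D - d v) + ∑ v ∈ Xᶜ, d v < D) →
          ∀ G : SimpleGraph (Fin n), (∀ v, (G.neighborSet v).ncard = d v) →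
            G.lineGraph.chromaticNumber = (D : ℕ∞) + 1) ∧
        ((∀ X : Finset (Fin n), Odd X.card → D ≤ ∑ v ∈ X, (D - d v) + ∑ v ∈ Xᶜ, d v) →
          c ≤ ({G : SimpleGraph (Fin n) | (∀ v, (G.neighborSet v).ncard = d v) ∧
                G.lineGraph.chromaticNumber ≤ (D : ℕ∞)}.ncard : ℝ) /
              ({G : SimpleGraph (Fin n) | ∀ v, (G.neighborSet v).ncard = d v}.ncard : ℝ))) ∧
      (∀ n m : ℕ, N ≤ m →
        (D * (n / 2) < m →
          ∀ G : SimpleGraph (Fin n), (∀ v, (G.neighborSet v).ncard ≤ D) → G.edgeSet.ncard = m →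
            G.lineGraph.chromaticNumber = (D : ℕ∞) + 1) ∧
        (m ≤ D * (n / 2) →
          c ≤ ({G : SimpleGraph (Fin n) | ((∀ v, (G.neighborSet v).ncard ≤ D) ∧
                G.edgeSet.ncard = m) ∧ G.lineGraph.chromaticNumber ≤ (D : ℕ∞)}.ncard : ℝ) /
              ({G : SimpleGraph (Fin n) | (∀ v, (G.neighborSet v).ncard ≤ D) ∧
                G.edgeSet.ncard = m}.ncard : ℝ))) := by
  classical
  obtain ⟨C1, hC1, N1, k1⟩ := claim_Fin h1 h2 D hD
  obtain ⟨C2, hC2, N2, k2⟩ := h4 D (by omega)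
  have hC3 : (0 : ℝ) < 3 * C1 * (C2 + 1) := by positivity
  refine ⟨1 / (3 * C1 * (C2 + 1)), by positivity, max N1 N2, ?_, ?_⟩
  · intro n d hd he hN
    simp only [ncard_nb, ← cost_eq_Fin]
    refine ⟨?_, fun hX => ?_⟩
    · rintro ⟨X, hX, hc⟩ G hG
      have e : deg G = d := funext hG
      exact chi_Fin h3 h5 (e ▸ hd) hX (e ▸ hc)
    · have a1 := k1 (Fin n) d ⟨hd, he, hX⟩ (le_of_max_le_left hN)
      have hq := Q_pos d
      refine ratio_Fin hC3 (fun G hG => hG.1) (q := 3 * Q d) (by positivity) ?_ ?_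
      · refine le_trans (le_of_eq ?_) (gset_le_Fin d)
        rw [← Set.ncard_coe_finset]
        congr 2
        ext G
        simp only [Set.mem_ofPred_eq, mem_coe, mem_gset]
      · have a2 : ((es D d).card : ℝ) ≤ ({G : SimpleGraph (Fin n) | (∀ v, deg G v = d v) ∧
            G.lineGraph.chromaticNumber ≤ (D : ℕ∞)}.ncard : ℝ) := by
          rw [← Set.ncard_coe_finset]
          refine Nat.cast_le.2 (Set.ncard_le_ncard (fun G hG => ?_) (Set.toFinite _))
          exact ⟨(mem_es.1 hG).1, (mem_es.1 hG).2.colorable.chromaticNumber_le⟩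
        generalize (({G : SimpleGraph (Fin n) | (∀ v, deg G v = d v) ∧
            G.lineGraph.chromaticNumber ≤ (D : ℕ∞)}.ncard : ℕ) : ℝ) = a at a2 ⊢
        have a0 : (0 : ℝ) ≤ (es D d).card := by positivity
        have a3 : Q d ≤ C1 * a := a1.trans (by gcongr)
        have a4 : 0 ≤ C1 * a * C2 := by have := a0.trans a2; positivity
        linarith
  · intro n m hm
    simp only [ncard_nb]
    refine ⟨fun hlt G hG he => ?_, fun hle => ?_⟩
    · have s1 := sum_deg_Fin G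
      have s2 : cost D (deg G) univ + ∑ v, deg G v = D * n := by
        rw [cost_eq_Fin, compl_univ, sum_empty, add_zero, ← sum_add_distrib,
          sum_congr rfl fun v _ => Nat.sub_add_cancel (hG v)]
        simp [mul_comm]
      rw [s1, he] at s2
      rcases Nat.even_or_odd' n with ⟨t, rfl | rfl⟩
      · rw [Nat.mul_div_cancel_left _ two_pos] at hlt
        rw [mul_left_comm] at s2
        omega
      · refine chi_Fin h3 h5 hG (X := univ) (by simp) ?_
        rw [show (2 * t + 1) / 2 = t by omega] at hlt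
        rw [mul_add, mul_left_comm, mul_one] at s2
        omega
    · obtain ⟨hne, a1⟩ := k2 (Fin n) m (le_of_max_le_right hm) (by simpa using hle)
      refine ratio_Fin hC3 (fun G hG => hG.1) (q := ∑ d ∈ seqs (Fin n) D (2 * m), 3 * Q d)
        (sum_pos (fun d _ => by have := Q_pos d; positivity) hne) ?_ ?_
      · refine le_trans ?_ (sum_le_sum fun d _ => gset_le_Fin d)
        rw [← Nat.cast_sum]
        refine Nat.cast_le.2 (le_trans ?_ card_biUnion_le)
        rw [← Set.ncard_coe_finset]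
        refine Set.ncard_le_ncard (fun G hG => ?_) (Set.toFinite _)
        rw [mem_coe, mem_biUnion]
        exact ⟨deg G, mem_seqs.2 ⟨hG.1, by rw [sum_deg_Fin, hG.2]⟩, mem_gset.2 fun _ => rfl⟩
      · have a2 : ∑ d ∈ (seqs (Fin n) D (2 * m)).filter (Crit D), ((es D d).card : ℝ) ≤
            ({G : SimpleGraph (Fin n) | ((∀ v, deg G v ≤ D) ∧ G.edgeSet.ncard = m) ∧
              G.lineGraph.chromaticNumber ≤ (D : ℕ∞)}.ncard : ℝ) := by
          rw [← Nat.cast_sum, ← card_biUnion, ← Set.ncard_coe_finset]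
          · refine Nat.cast_le.2 (Set.ncard_le_ncard (fun G hG => ?_) (Set.toFinite _))
            rw [mem_coe, mem_biUnion] at hG
            obtain ⟨d, hd, hG⟩ := hG
            obtain ⟨b1, b2⟩ := mem_seqs.1 (mem_filter.1 hd).1
            obtain ⟨b3, b4⟩ := mem_es.1 hG
            have b5 := sum_deg_Fin G
            rw [sum_congr rfl fun v _ => b3 v, b2] at b5
            exact ⟨⟨b4.deg_le, by omega⟩, b4.colorable.chromaticNumber_le⟩
          · intro d _ d' _ hne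
            refine disjoint_left.2 fun G g1 g2 => hne (funext fun v => ?_)
            rw [← (mem_es.1 g1).1 v, (mem_es.1 g2).1 v]
        have a3 : ∑ d ∈ (seqs (Fin n) D (2 * m)).filter (Crit D), Q d ≤
            C1 * ∑ d ∈ (seqs (Fin n) D (2 * m)).filter (Crit D), ((es D d).card : ℝ) := by
          rw [mul_sum]
          refine sum_le_sum fun d hd => k1 _ d (mem_filter.1 hd).2 ?_
          rw [(mem_seqs.1 (mem_filter.1 hd).1).2]
          have := le_of_max_le_left hm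
          omega
        have a0 : (0 : ℝ) ≤ ∑ d ∈ (seqs (Fin n) D (2 * m)).filter (Crit D),
            ((es D d).card : ℝ) := by positivity
        rw [← mul_sum]
        generalize (({G : SimpleGraph (Fin n) | ((∀ v, deg G v ≤ D) ∧ G.edgeSet.ncard = m) ∧
              G.lineGraph.chromaticNumber ≤ (D : ℕ∞)}.ncard : ℕ) : ℝ) = a at a2 ⊢
        have a4 := a1.trans (mul_le_mul_of_nonneg_left
          (a3.trans (mul_le_mul_of_nonneg_left a2 hC1.le)) hC2.le)
        have a5 : 0 ≤ C1 * a := by have := a0.trans a2; positivity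
        linarith

end Pool.Agent.MP_c4b7b1_co.DS

end

namespace Pool.Agent.MP_c4b7b1_co.DS

theorem step_all : SStep := sStep (sUp4 sLap sIn) (sFm sPma (sWt sSel))

theorem base_all : Claim 3 := sBase (sCol sPma (sWt sSel)) (sUp9 sLap)

end Pool.Agent.MP_c4b7b1_co.DS
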