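import Pool.Agent.Mg.Fc4b7b1.Gbe7192

/-! Edge colourings of random graphs with a prescribed degree function: definitions and the
statements of the intermediate steps. -/

set_option autoImplicit false

namespace Pool.Agent.MP_c4b7b1_co.DS

open Finset Real

section defs

variable {L : Type} [Fintype L] [DecidableEq L] {V : Type} [Fintype V] [DecidableEq V]

/-- cost of a vertex set: deficiency inside plus degree outside -/
def cost (k : ℕ) (d : V → ℕ) (X : Finset V) : ℕ := ∑ v, if v ∈ X then k - d v else d v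

/-- the parity criterion for `k` colours -/
def Crit (k : ℕ) (d : V → ℕ) : Prop :=
  (∀ v, d v ≤ k) ∧ Even (∑ v, d v) ∧ ∀ X : Finset V, Odd X.card → k ≤ cost k d X

/-- indicator function of a vertex set -/
def ind (S : Finset V) : V → ℕ := fun v => if v ∈ S then 1 else 0

/-- degrees lowered by one on `S` -/
def low (d : V → ℕ) (S : Finset V) : V → ℕ := fun v => if v ∈ S then d v - 1 else d v

open Classical in
/-- unions of `k` matchings with degree function `d` -/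
noncomputable def es (k : ℕ) (d : V → ℕ) : Finset (SimpleGraph V) := (gset d).filter (UM k)

/-- the configuration value -/
noncomputable def Q (d : V → ℕ) : ℝ := lap (∑ v, d v) / ∏ v, ((d v).factorial : ℝ)

open Classical in
/-- perfect matchings of `S` edge-disjoint from `H` -/
noncomputable def pms (S : Finset V) (H : SimpleGraph V) : Finset (SimpleGraph V) :=
  (gset (ind S)).filter (fun M => Disjoint H M)

open Classical in
/-- weighted number of families of graphs with degree vectors in a set depending on `d v` -/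
noncomputable def cnt2 (d : V → ℕ) (T : ℕ → Finset (L → ℕ)) (c : ℕ → (L → ℕ) → ℝ) : ℝ :=
  ∑ F ∈ univ.filter (fun F : L → SimpleGraph V => ∀ v, (fun l => deg (F l) v) ∈ T (d v)),
    ∏ v, c (d v) (fun l => deg (F l) v)

/-- admissible supports of the last colour class -/
def Good (k N : ℕ) (d : V → ℕ) (S : Finset V) : Prop :=
  Even S.card ∧ N ≤ S.card ∧ (∀ v ∈ S, 1 ≤ d v) ∧ Crit k (low d S) ∧ N ≤ ∑ v, low d S v

open Classical in
/-- the set of admissible supports -/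
noncomputable def goods (k N : ℕ) (d : V → ℕ) : Finset (Finset V) := univ.filter (Good k N d)

/-- weight of a support -/
def ws (k : ℕ) (d : V → ℕ) (S : Finset V) : ℕ := ∏ v, if v ∈ S then d v else k + 1 - d v

open Classical in
/-- graphs with degree function `d` and a proper colouring with `k` colours -/
noncomputable def col (k : ℕ) (d : V → ℕ) : Finset (Fin k → SimpleGraph V) :=
  univ.filter (fun F => (∀ i, IsM (F i)) ∧ (∀ i j, i ≠ j → Disjoint (F i) (F j)) ∧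
    ∀ v, ∑ i, deg (F i) v = d v)

open Classical in
/-- a union of `k` matchings together with one more matching -/
noncomputable def prs (k : ℕ) (d : V → ℕ) : Finset (SimpleGraph V × SimpleGraph V) :=
  univ.filter (fun x => UM k x.1 ∧ IsM x.2 ∧ Disjoint x.1 x.2 ∧ ∀ v, deg x.1 v + deg x.2 v = d v)

/-- weight of a vertex of degree `j` met by `e` edges of the last matching -/
noncomputable def wv (k j e : ℕ) : ℝ := if e = 0 then ((k + 1 - j : ℕ) : ℝ) else √(k : ℝ)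

/-- weight of the last matching -/
noncomputable def wp (k : ℕ) (d : V → ℕ) (M : SimpleGraph V) : ℝ := ∏ v, wv k (d v) (deg M v)

/-- vertex types of the step -/
def U4 (k j : ℕ) : Finset (Fin 4 → ℕ) := (T4 k).filter (fun t => ∑ l, t l = j)

/-- weights of the vertex types of the step -/
noncomputable def e4 (k j : ℕ) (t : Fin 4 → ℕ) : ℝ := wv k j (t 1 + t 3) * wv k j (t 2 + t 3)

/-- vertex types of the base case -/
def U9 (j : ℕ) : Finset (Fin 9 → ℕ) := T9.filter (fun t => ∑ l, t l = j)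

/-- degree functions bounded by `D` with sum `M` -/
def seqs (V : Type) [Fintype V] [DecidableEq V] (D M : ℕ) : Finset (V → ℕ) :=
  (Fintype.piFinset (fun _ : V => range (D + 1))).filter (fun d => ∑ v, d v = M)

lemma mem_es {k : ℕ} {d : V → ℕ} {G : SimpleGraph V} :
    G ∈ es k d ↔ (∀ v, deg G v = d v) ∧ UM k G := by
  simp only [es, mem_filter, mem_gset]

lemma mem_pms {S : Finset V} {H M : SimpleGraph V} :
    M ∈ pms S H ↔ (∀ v, deg M v = ind S v) ∧ Disjoint H M := by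
  simp only [pms, mem_filter, mem_gset]

lemma mem_goods {k N : ℕ} {d : V → ℕ} {S : Finset V} : S ∈ goods k N d ↔ Good k N d S := by
  simp only [goods, mem_filter, mem_univ, true_and]

lemma mem_col {k : ℕ} {d : V → ℕ} {F : Fin k → SimpleGraph V} : F ∈ col k d ↔
    (∀ i, IsM (F i)) ∧ (∀ i j, i ≠ j → Disjoint (F i) (F j)) ∧ ∀ v, ∑ i, deg (F i) v = d v := by
  simp only [col, mem_filter, mem_univ, true_and]

lemma mem_prs {k : ℕ} {d : V → ℕ} {x : SimpleGraph V × SimpleGraph V} : x ∈ prs k d ↔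
    UM k x.1 ∧ IsM x.2 ∧ Disjoint x.1 x.2 ∧ ∀ v, deg x.1 v + deg x.2 v = d v := by
  simp only [prs, mem_filter, mem_univ, true_and]

lemma mem_seqs {D M : ℕ} {d : V → ℕ} : d ∈ seqs V D M ↔ (∀ v, d v ≤ D) ∧ ∑ v, d v = M := by
  simp only [seqs, mem_filter, Fintype.mem_piFinset, mem_range, Nat.lt_succ_iff]

lemma wv_nonneg (k j e : ℕ) : 0 ≤ wv k j e := by
  unfold wv; split_ifs <;> positivity

lemma Q_pos (d : V → ℕ) : 0 < Q d := div_pos (lap_pos _) (by positivity)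

lemma sum_low_add (d : V → ℕ) (S : Finset V) (h : ∀ v ∈ S, 1 ≤ d v) :
    ∑ v, low d S v + S.card = ∑ v, d v := by
  rw [card_eq_sum_ones, ← sum_ite_mem_eq S (fun _ => 1), ← sum_add_distrib]
  refine sum_congr rfl fun v _ => ?_
  unfold low
  split_ifs with hv
  · have := h v hv; omega
  · rfl

lemma lap_mul_ge (a b : ℕ) {x z : ℝ} (hx : 0 ≤ x) (hz : 0 ≤ z) :
    x ^ a * z ^ b * exp (-(x ^ 2 + z ^ 2) / 2) ≤ lap a * lap b := by
  have h := mul_le_mul (pow_exp_le_lap a x hx) (pow_exp_le_lap b z hz) (by positivity)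
    (lap_pos a).le
  refine le_trans (le_of_eq ?_) h
  rw [show -(x ^ 2 + z ^ 2) / 2 = -x ^ 2 / 2 + -z ^ 2 / 2 by ring, exp_add]
  ring

lemma le_cnt2 {α : Type*} (X : Finset α) (g : α → L → SimpleGraph V) (hg : Set.InjOn g X)
    (d : V → ℕ) (T : ℕ → Finset (L → ℕ)) (c : ℕ → (L → ℕ) → ℝ) (hc : ∀ j t, 0 ≤ c j t)
    (w : α → ℝ) (hT : ∀ x ∈ X, ∀ v, (fun l => deg (g x l) v) ∈ T (d v))
    (hw : ∀ x ∈ X, w x ≤ ∏ v, c (d v) (fun l => deg (g x l) v)) :
    ∑ x ∈ X, w x ≤ cnt2 d T c := by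
  classical
  refine (sum_le_sum hw).trans ?_
  rw [← sum_image (s := X) (g := g)
    (f := fun F : L → SimpleGraph V => ∏ v, c (d v) (fun l => deg (F l) v)) hg]
  unfold cnt2
  apply sum_le_sum_of_subset_of_nonneg
  · intro F hF
    obtain ⟨x, hx, rfl⟩ := mem_image.mp hF
    simp only [mem_filter, mem_univ, true_and]
    exact hT x hx
  · intro F _ _
    exact prod_nonneg (fun _ _ => hc _ _)

end defs

/-- the induction claim -/
def Claim (k : ℕ) : Prop :=
  ∃ C : ℝ, 0 < C ∧ ∃ N : ℕ, ∀ (V : Type) [Fintype V] [DecidableEq V] (d : V → ℕ),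
    Crit k d → N ≤ ∑ v, d v → Q d ≤ C * (es k d).card

/-- Laplace bound with vertex-dependent types -/
def SLap : Prop :=
  ∀ (L : Type) [Fintype L] [DecidableEq L] (D : ℕ) (T : ℕ → Finset (L → ℕ))
    (c : ℕ → (L → ℕ) → ℝ) (u : L → ℝ) (P : ℕ → ℝ) (κ : ℝ),
    (∀ j t, 0 ≤ c j t) → (∀ j, ∀ t ∈ T j, ∑ l, t l = j) → (∀ j, 0 ≤ P j) → 0 < κ →
    (∀ j ≤ D, ∀ y : L → ℝ, (∀ l, 0 ≤ y l) → fT (T j) (c j) y ≤
      P j * exp (j * ((∑ l, y l ^ 2) / 2 - 1 / 2 - κ * ∑ l, (y l - u l) ^ 2))) →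
    ∃ C : ℝ, 0 < C ∧ ∀ (V : Type) [Fintype V] [DecidableEq V] (d : V → ℕ), (∀ v, d v ≤ D) →
      1 ≤ ∑ v, d v → cnt2 d T c ≤ C * (lap (∑ v, d v) * ∏ v, P (d v))

/-- perfect matchings of a vertex set avoiding a sparse graph -/
def SPma : Prop :=
  ∀ D : ℕ, ∃ C : ℝ, 0 < C ∧ ∃ N : ℕ, ∀ (V : Type) [Fintype V] [DecidableEq V] (S : Finset V)
    (H : SimpleGraph V), (∀ v, deg H v ≤ D) → Even S.card → N ≤ S.card →
      lap S.card ≤ C * (pms S H).card

/-- one colour class can be removed -/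
def SSel : Prop :=
  ∀ (V : Type) [Fintype V] [DecidableEq V] (k : ℕ) (d : V → ℕ), Crit (k + 1) d →
    ∃ S : Finset V, Even S.card ∧ (∀ v ∈ S, 1 ≤ d v) ∧ Crit k (low d S)

/-- admissible supports have positive probability -/
def SWt : Prop :=
  ∀ k N : ℕ, 1 ≤ k → ∃ C : ℝ, 0 < C ∧ ∃ N' : ℕ, ∀ (V : Type) [Fintype V] [DecidableEq V]
    (d : V → ℕ), Crit (k + 1) d → N' ≤ ∑ v, d v →
      ((k : ℝ) + 1) ^ Fintype.card V ≤ C * ∑ S ∈ goods k N d, (ws k d S : ℝ)

/-- the analytic inequality of the step, normalised -/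
def SIn : Prop :=
  ∀ (k j : ℕ) (a b c e : ℝ), 2 ≤ k → j ≤ k + 1 → 0 ≤ a → 0 ≤ b → 0 ≤ c → 0 ≤ e →
    (((k : ℝ) + 1 - j) ^ 2 * a ^ j + ((k : ℝ) + 1 - j) * j * a ^ (j - 1) * (b + c) +
        j * a ^ (j - 1) * e + j * ((j : ℝ) - 1) * a ^ (j - 2) * (b * c)) / ((k : ℝ) + 1) ^ 2 ≤
      exp (j * (((k : ℝ) ^ 2 * a ^ 2 + k * b ^ 2 + k * c ^ 2 + e ^ 2) / ((k : ℝ) + 1) ^ 2 / 2 -
        1 / 2 - 1 / (2000 * (k : ℝ) ^ 2) * (((k : ℝ) ^ 2 * (a - 1) ^ 2 + k * (b - 1) ^ 2 +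
          k * (c - 1) ^ 2 + (e - 1) ^ 2) / ((k : ℝ) + 1) ^ 2)))

/-- the Laplace bound of the step -/
def SUp4 : Prop :=
  ∀ k : ℕ, 2 ≤ k → ∃ C : ℝ, 0 < C ∧ ∀ (V : Type) [Fintype V] [DecidableEq V] (d : V → ℕ),
    (∀ v, d v ≤ k + 1) → 1 ≤ ∑ v, d v → cnt2 d (U4 k) (e4 k) ≤
      C * (Q d * (√((k : ℝ) / (k + 1)) ^ (∑ v, d v) * ((k : ℝ) + 1) ^ Fintype.card V) ^ 2)

/-- first moment of the step -/
def SFm : Prop :=
  ∀ k : ℕ, 1 ≤ k → Claim k → ∃ C : ℝ, 0 < C ∧ ∃ N : ℕ,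
    ∀ (V : Type) [Fintype V] [DecidableEq V] (d : V → ℕ), Crit (k + 1) d → N ≤ ∑ v, d v →
      Q d * (√((k : ℝ) / (k + 1)) ^ (∑ v, d v) * ((k : ℝ) + 1) ^ Fintype.card V) ≤
        C * ∑ x ∈ prs k d, wp k d x.2

/-- the step -/
def SStep : Prop := ∀ k : ℕ, 2 ≤ k → Claim k → Claim (k + 1)

/-- first moment of the number of colourings -/
def SCol (k : ℕ) : Prop :=
  ∃ C : ℝ, 0 < C ∧ ∃ N : ℕ, ∀ (V : Type) [Fintype V] [DecidableEq V] (d : V → ℕ),
    Crit k d → N ≤ ∑ v, d v →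
      lap (∑ v, d v) * (√(1 / (k : ℝ)) ^ (∑ v, d v) * ∏ v, (k.choose (d v) : ℝ)) ≤
        C * (col k d).card

/-- the Laplace bound of the base case -/
def SUp9 : Prop :=
  ∃ C : ℝ, 0 < C ∧ ∀ (V : Type) [Fintype V] [DecidableEq V] (d : V → ℕ),
    (∀ v, d v ≤ 3) → 1 ≤ ∑ v, d v → cnt2 d U9 (fun _ _ => 1) ≤
      C * (lap (∑ v, d v) * ∏ v, ((Nat.choose 3 (d v) : ℝ) ^ 2 * (d v).factorial / 3 ^ d v))

/-- the parity obstruction -/
def SObs : Prop :=
  ∀ (V : Type) [Fintype V] [DecidableEq V] (k : ℕ) (G : SimpleGraph V) (X : Finset V),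
    G.lineGraph.Colorable k → Odd X.card → k ≤ cost k (deg G) X

open Classical in
/-- obstructed degree functions do not dominate -/
def SEdge : Prop :=
  ∀ D : ℕ, 2 ≤ D → ∃ C : ℝ, 0 < C ∧ ∃ N : ℕ, ∀ (V : Type) [Fintype V] [DecidableEq V] (m : ℕ),
    N ≤ m → m ≤ D * (Fintype.card V / 2) →
      (seqs V D (2 * m)).Nonempty ∧
      ∑ d ∈ seqs V D (2 * m), Q d ≤ C * ∑ d ∈ (seqs V D (2 * m)).filter (Crit D), Q d

/-- one more colour than the maximum degree suffices -/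
def SViz : Prop :=
  ∀ (V : Type) [Fintype V] [DecidableEq V] (D : ℕ) (G : SimpleGraph V), (∀ v, deg G v ≤ D) →
    G.lineGraph.Colorable (D + 1)

end Pool.Agent.MP_c4b7b1_co.DS
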